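import Pool.Agent.K6.H80.VB.Main2

/-!
The height inequality in all charts and for all sets of divisors.
-/

set_option autoImplicit false
set_option linter.unusedSectionVars false

open MvPolynomial FF Pool.Agent.W603.LV Pool.Agent.W603.PV Pool.Agent.W603.CZ
open Pool.Agent.K6.H80.LV (St po px bht DimB Sys Two st_two)
open Pool.Agent.K6.H80.FV (sht IsMulti Meet Mt)

namespace Pool.Agent.K6.H80.VB

/-- The conclusion. -/
def Concl (k : Type) {F0 F L σ S T J : Type} [Field k] [Field F0] [Field F] [Field L] [Algebra k L]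
    [Algebra F0 L] [Algebra F L] [Fintype σ] [Fintype S] [Fintype J] (β : σ → S) (dg : T → S → ℕ)
    (Fm : T → MvPolynomial σ F) (V : Set (MvPolynomial σ F0)) (m : ℕ) (μ : S → ℕ) (e : ℕ)
    (A : Matrix (Fin e) J L) (T' : Finset T) (C : ℕ) (x : σ → L) : Prop :=
  ∃ (r : ℕ) (u : Fin (r + Fintype.card S) → σ → L) (w : S → ℕ), r ≤ m ∧
    LinearIndependent L u ∧ (∀ s, px β x s ∈ Submodule.span L (Set.range u)) ∧
    (∀ i, ∀ f ∈ V, ∑ l, aeval x (pderiv l f) * u i l = 0) ∧
    ∑ s, w s + e ≤ r ∧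
    wht k A + ∑ s, ((∑ t ∈ T', dg t s : ℕ) - w s : ℤ) * bht k β x s + sht k β x u ≤
      (Mt k β dg Fm T' x).ncard + canDeg k L + C * Module.finrank F L ∧
    wht k A + ∑ s, ((∑ t ∈ T', dg t s : ℕ) - w s - μ s - 1 : ℤ) * bht k β x s ≤
      (Mt k β dg Fm T' x).ncard + canDeg k L + C * Module.finrank F L

theorem final {k0 k F0 F : Type} [Field k0] [Field k] [Field F0] [Field F] [IsAlgClosed k]
    [CharZero k] [Algebra k0 k] [Algebra k F] [Algebra k0 F] [IsScalarTower k0 k F]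
    [Algebra k0 F0] [Algebra F0 F] [IsScalarTower k0 F0 F] [IsFF k F]
    (hfg : ∃ S : Finset F0, IntermediateField.adjoin k0 (S : Set F0) = ⊤)
    {σ S T J Q : Type} [Fintype σ] [Fintype S] [Fintype T] [Fintype J] [Fintype Q]
    {β : σ → S} {m : ℕ} {μ : S → ℕ}
    (V : Set (MvPolynomial σ F0)) (hVm : ∀ f ∈ V, ∃ e, IsMulti β e f) (hV : DimB F0 β V m μ)
    (s0 : Q → S) (g : Q → J → σ → F0) (e : ℕ) (z : J → F)
    (hrank : ∀ (Ω : Type) [Field Ω] [Algebra F0 Ω] (x : σ → Ω), (∀ s, ∃ l, β l = s ∧ x l = 1) →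
      (∀ f ∈ V, aeval x f = 0) →
      Module.finrank Ω (Submodule.span Ω (Set.range (Gv β s0 g x))) + e = Fintype.card J)
    (dg : T → S → ℕ)
    (G0 : T → MvPolynomial σ F0) (hG0 : ∀ t, IsMulti β (dg t) (G0 t))
    {X : T → Type} [∀ t, Fintype (X t)] (P : ∀ t, X t → MvPolynomial σ F0)
    (hPm : ∀ t j, IsMulti β (dg t) (P t j))
    (hP : ∀ t I, Two β (dg t) I → Sys β V (P t) I)
    (cf : ∀ t, X t → F)
    (hind : AlgebraicIndependent F0 (Sum.elim z fun p : (Σ t, X t) => cf p.1 p.2))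
    {Fm : T → MvPolynomial σ F}
    (hF : ∀ t, Fm t = map (algebraMap F0 F) (G0 t) +
      ∑ j, C (cf t j) * map (algebraMap F0 F) (P t j)) :
    ∃ C : ℕ, ∀ (L : Type) [Field L] [Algebra k L] [Algebra F L] [Algebra F0 L]
      [IsScalarTower k F L] [IsScalarTower F0 F L] [FiniteDimensional F L] (x : σ → L),
      (∀ s, ∃ l, β l = s ∧ x l = 1) → (∀ f ∈ V, aeval x f = 0) →
      (fun j => algebraMap F L (z j)) ∈ Submodule.span L (Set.range (Gv β s0 g x)) →
      ∀ A : Matrix (Fin e) J L, LinearIndependent L A.row →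
      (∀ q, A.mulVec (Gv β s0 g x q) = 0) →
      ∀ T' : Finset T, (∀ t ∈ T', aeval x (Fm t) ≠ 0) →
      Concl k β dg Fm V m μ e A T' C x := by
  classical
  have key : ∀ (c : S → σ) (T' : Finset T), ∃ C : ℕ, (∀ s, β (c s) = s) →
      ∀ (L : Type) [Field L] [Algebra k L] [Algebra F L] [Algebra F0 L]
      [IsScalarTower k F L] [IsScalarTower F0 F L] [FiniteDimensional F L] (x : σ → L),
      (∀ s, x (c s) = 1) → (∀ f ∈ V, aeval x f = 0) →
      (fun j => algebraMap F L (z j)) ∈ Submodule.span L (Set.range (Gv β s0 g x)) →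
      ∀ A : Matrix (Fin e) J L, LinearIndependent L A.row →
      (∀ q, A.mulVec (Gv β s0 g x q) = 0) → (∀ t ∈ T', aeval x (Fm t) ≠ 0) →
      Concl k β dg Fm V m μ e A T' C x := by
    intro c T'
    by_cases h : ∀ s, β (c s) = s
    · obtain ⟨C, hC⟩ := main (k := k) hfg h V hVm hV s0 g e z hrank
        (T := {t // t ∈ T'}) (fun t => dg t) (fun t => G0 t) (fun t => hG0 t)
        (X := fun t => X t) (fun t => P t) (fun t j => hPm t j)
        (fun t I hI => hP t I (st_two h hI)) (fun t => cf t) (by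
          have h1 := hind.comp (Sum.map id fun p : (Σ t : {t // t ∈ T'}, X t) =>
            (⟨p.1.1, p.2⟩ : Σ t, X t)) (Function.injective_id.sumMap (by
              rintro ⟨⟨a, ha⟩, j⟩ ⟨⟨a', ha'⟩, j'⟩ h
              obtain rfl : a = a' := congrArg Sigma.fst h
              obtain rfl : j = j' := eq_of_heq (Sigma.mk.inj_iff.1 h).2
              rfl))
          have h2 : (Sum.elim z fun p : (Σ t, X t) => cf p.1 p.2) ∘ (Sum.map id
              fun p : (Σ t : {t // t ∈ T'}, X t) => (⟨p.1.1, p.2⟩ : Σ t, X t)) =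
              Sum.elim z fun p : (Σ t : {t // t ∈ T'}, X t) => cf p.1 p.2 := by
            funext i
            rcases i with i | i <;> rfl
          rw [← h2]
          exact h1) (Fm := fun t => Fm t) (fun t => hF t)
      refine ⟨C, fun _ L _ _ _ _ _ _ _ x hx hxV hxz A hA hAG hxT => ?_⟩
      obtain ⟨r, u, w, hr, hu, hpx, htan, hw, h1, h2⟩ := hC L x hx hxV
        (fun t => hxT t t.2) hxz A hA hAG
      have hMeet : Meet k (A := {a // a ∈ T'}) β (fun a => dg a) (fun a => Fm a)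
          id x = Mt k β dg Fm T' x := by
        ext P
        constructor
        · rintro ⟨t, ht⟩
          exact ⟨t.1, t.2, ht⟩
        · rintro ⟨t, htT, ht⟩
          exact ⟨⟨t, htT⟩, ht⟩
      have hsum : ∀ s, ∑ a : {a // a ∈ T'}, dg a s = ∑ a ∈ T', dg a s := fun s =>
        Finset.sum_coe_sort T' (fun a => dg a s)
      rw [hMeet] at h1 h2
      simp only [hsum] at h1 h2
      exact ⟨r, u, w, hr, hu, hpx, htan, hw, h1, h2⟩
    · exact ⟨0, fun h1 => absurd h1 h⟩
  choose C hC using key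
  refine ⟨∑ c, ∑ T', C c T', ?_⟩
  intro L _ _ _ _ _ _ _ x hx hxV hxz A hA hAG T' hxT
  choose c hc using hx
  obtain ⟨r, u, w, hr, hu, hpx, htan, hw, h1, h2⟩ := hC c T' (fun s => (hc s).1) L x
    (fun s => (hc s).2) hxV hxz A hA hAG hxT
  have hle : C c T' ≤ ∑ c, ∑ T', C c T' :=
    le_trans (Finset.single_le_sum (f := fun T' => C c T') (fun _ _ => Nat.zero_le _)
      (Finset.mem_univ T')) (Finset.single_le_sum (f := fun c => ∑ T', C c T')
      (fun _ _ => Nat.zero_le _) (Finset.mem_univ c))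
  have h3 : (C c T' : ℤ) * Module.finrank F L ≤ (∑ c, ∑ T', C c T' : ℕ) * Module.finrank F L :=
    mul_le_mul_of_nonneg_right (by exact_mod_cast hle) (by positivity)
  exact ⟨r, u, w, hr, hu, hpx, htan, hw, by linarith, by linarith⟩

end Pool.Agent.K6.H80.VB
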