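import Pool.Agent.K6.H80.FV.Rows

/-!
Vector fields given by derivations whose classes in a quotient space satisfy relations with linear
coefficients.
-/

set_option autoImplicit false
set_option linter.unusedSectionVars false

open MvPolynomial FF Pool.Agent.W603.LV Pool.Agent.W603.PV
open Pool.Agent.K6.H80.LV (det_blk)
open Pool.Agent.K6.H80.FV (gw gx gx_inl sum_gx_inl gsc prod_gw_inl gsc_inl der_gsc)

namespace Pool.Agent.K6.H80.VB

variable {K : Type} [Field K] {σ S T Δ R Q : Type} [Fintype σ] [Fintype S]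

/-- The derivatives of the coordinates. -/
def ev (δ : Derivation ℤ K K) (y : σ ⊕ T → K) : σ ⊕ T → K := fun γ => δ (y γ)

open scoped Classical in
/-- The tangent vector fields. -/
noncomputable def tv (β : σ → S) (E : Q → σ → Derivation ℤ K K) (sq : Q → S) (y : σ ⊕ T → K)
    (q : Q) : σ ⊕ T → K :=
  ∑ l, if β l = sq q then y (Sum.inl l) • ev (E q l) y else 0

/-- The position vectors and the tangent vector fields. -/
noncomputable def wv (β : σ → S) (wT : T → S → ℕ) (E : Q → σ → Derivation ℤ K K) (sq : Q → S)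
    (y : σ ⊕ T → K) : S ⊕ Q → σ ⊕ T → K
  | Sum.inl s => gx β wT y s
  | Sum.inr q => tv β E sq y q

/-- The rows: the vector fields and the derivatives in the directions `I`. -/
noncomputable def vv (β : σ → S) (wT : T → S → ℕ) (D : Δ → Derivation ℤ K K)
    (E : Q → σ → Derivation ℤ K K) (sq : Q → S)
    (y : σ ⊕ T → K) (I : R → Δ) : (S ⊕ Q) ⊕ R → σ ⊕ T → K
  | Sum.inl o => wv β wT E sq y o
  | Sum.inr a => ev (D (I a)) y

/-- The factors of the rows. -/
def fac (sq : Q → S) (lam : S → K) : (S ⊕ Q) ⊕ R → K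
  | Sum.inl (Sum.inl _) => 1
  | Sum.inl (Sum.inr q) => lam (sq q)
  | Sum.inr _ => 1

theorem vv_scale {β : σ → S} {wT : T → S → ℕ} (D : Δ → Derivation ℤ K K)
    (E : Q → σ → Derivation ℤ K K) (sq : Q → S) (y : σ ⊕ T → K) {lam : S → K}
    (hl : ∀ s, lam s ≠ 0) (I : R → Δ) :
    ∃ κ : (S ⊕ Q) ⊕ R → S → K, (∀ s s', κ (Sum.inl (Sum.inl s)) s' = 0) ∧
      ∀ i γ, vv β wT D E sq (gsc β wT lam y) I i γ =
        (∏ s, lam s ^ gw β wT γ s) *
          (fac sq lam i * (vv β wT D E sq y I i γ + ∑ s, κ i s * gx β wT y s γ)) := by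
  classical
  refine ⟨fun i s => match i with
    | Sum.inl (Sum.inl _) => 0
    | Sum.inl (Sum.inr q) => ∑ l, if β l = sq q then
        y (Sum.inl l) * (E q l (lam s) / lam s) else 0
    | Sum.inr a => D (I a) (lam s) / lam s, fun s s' => rfl, ?_⟩
  rintro ((s | q) | a) γ
  · simp only [vv, wv, fac, zero_mul, one_mul, Finset.sum_const_zero, add_zero]
    rw [gx, gx, gsc]
    ring
  · simp only [vv, wv, fac, tv, Finset.sum_apply]
    have h1 : ∀ l, (if β l = sq q then gsc β wT lam y (Sum.inl l) •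
        ev (E q l) (gsc β wT lam y) else 0 : σ ⊕ T → K) γ =
        (∏ s, lam s ^ gw β wT γ s) * (lam (sq q) *
          ((if β l = sq q then y (Sum.inl l) • ev (E q l) y else 0 : σ ⊕ T → K) γ +
          ∑ s, (if β l = sq q then y (Sum.inl l) * (E q l (lam s) / lam s) else 0) *
            gx β wT y s γ)) := by
      intro l
      by_cases hls : β l = sq q
      · simp only [if_pos hls, Pi.smul_apply, smul_eq_mul, ev]
        rw [der_gsc β wT hl, gsc_inl, hls]
        have h2 : ∑ s, y (Sum.inl l) * (E q l (lam s) / lam s) * gx β wT y s γ =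
            y (Sum.inl l) * ∑ s, E q l (lam s) / lam s * gx β wT y s γ := by
          rw [Finset.mul_sum]
          exact Finset.sum_congr rfl fun s _ => by ring
        rw [h2]
        ring
      · simp only [if_neg hls, Pi.zero_apply, zero_mul, Finset.sum_const_zero, add_zero, mul_zero]
    rw [Finset.sum_congr rfl fun l _ => h1 l, ← Finset.mul_sum, ← Finset.mul_sum,
      Finset.sum_add_distrib]
    congr 3
    rw [Finset.sum_comm]
    exact Finset.sum_congr rfl fun s _ => by rw [Finset.sum_mul]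
  · simp only [vv, fac, one_mul, ev]
    exact der_gsc β wT hl y (D (I a)) γ

/-- The span of all the vector fields. -/
noncomputable def Full (β : σ → S) (wT : T → S → ℕ) (D : Δ → Derivation ℤ K K)
    (E : Q → σ → Derivation ℤ K K) (sq : Q → S) (y : σ ⊕ T → K) :
    Submodule K (σ ⊕ T → K) :=
  Submodule.span K (Set.range (wv β wT E sq y) ∪ Set.range fun δ => ev (D δ) y)

/-- The classes of the directions: the linear relations between the classes are generated by the
tangent vector fields, and there are functionals dual to the directions. -/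
structure Cl (β : σ → S) (wT : T → S → ℕ) [Fintype T] [Fintype Δ] [Fintype R]
    (D : Δ → Derivation ℤ K K)
    (E : Q → σ → Derivation ℤ K K) (sq : Q → S) (y : σ ⊕ T → K) (M : Matrix R Δ K)
    (φ : R → σ ⊕ T → K) : Prop where
  gen : ∀ κ : Δ → K, M.mulVec κ = 0 →
    ∑ δ, κ δ • ev (D δ) y ∈ Submodule.span K (Set.range (wv β wT E sq y))
  tan : ∀ p o, ∑ γ, φ p γ * wv β wT E sq y o γ = 0
  val : ∀ p δ, ∑ γ, φ p γ * D δ (y γ) = M p δ

section

variable [Fintype T] [Fintype Δ] [Fintype R] {β : σ → S} {wT : T → S → ℕ}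
  {D : Δ → Derivation ℤ K K} {E : Q → σ → Derivation ℤ K K} {sq : Q → S}

theorem wv_mem_full (y : σ ⊕ T → K) (o : S ⊕ Q) : wv β wT E sq y o ∈ Full β wT D E sq y :=
  Submodule.subset_span (Or.inl ⟨o, rfl⟩)

theorem ev_mem_full (y : σ ⊕ T → K) (δ : Δ) : ev (D δ) y ∈ Full β wT D E sq y :=
  Submodule.subset_span (Or.inr ⟨δ, rfl⟩)

theorem vv_mem_full (y : σ ⊕ T → K) {I : R → Δ} (i : (S ⊕ Q) ⊕ R) :
    vv β wT D E sq y I i ∈ Full β wT D E sq y := by
  rcases i with o | a
  · exact wv_mem_full y o
  · exact ev_mem_full y (I a)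

/-- Change of the directions. -/
theorem Cl.change [DecidableEq R] {y : σ ⊕ T → K} {M : Matrix R Δ K} {φ : R → σ ⊕ T → K}
    (h : Cl β wT D E sq y M φ) {I : R → Δ} (hI : (M.submatrix id I).det ≠ 0) (δ : Δ) :
    ev (D δ) y - ∑ p, ((M.submatrix id I)⁻¹.mulVec fun p => M p δ) p • ev (D (I p)) y ∈
      Submodule.span K (Set.range (wv β wT E sq y)) := by
  classical
  obtain ⟨c, hc⟩ : ∃ c, c = (M.submatrix id I)⁻¹.mulVec fun p => M p δ := ⟨_, rfl⟩
  have hc1 : (M.submatrix id I).mulVec c = fun p => M p δ := by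
    rw [hc, Matrix.mulVec_mulVec, Matrix.mul_nonsing_inv _ (isUnit_iff_ne_zero.2 hI),
      Matrix.one_mulVec]
  rw [← hc]
  obtain ⟨κ, hκ⟩ : ∃ κ : Δ → K, ∀ δ', κ δ' = (if δ' = δ then 1 else 0) -
    ∑ p, if I p = δ' then c p else 0 := ⟨_, fun _ => rfl⟩
  have h1 : M.mulVec κ = 0 := by
    funext p
    have h2 := congrFun hc1 p
    rw [Matrix.mulVec, dotProduct] at h2 ⊢
    simp only [Matrix.submatrix_apply, id] at h2
    simp only [hκ, mul_sub, Finset.sum_sub_distrib, Pi.zero_apply, mul_ite, mul_one, mul_zero,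
      Finset.mul_sum]
    rw [Finset.sum_ite_eq' Finset.univ δ, if_pos (Finset.mem_univ _), Finset.sum_comm, ← h2,
      sub_eq_zero]
    refine Finset.sum_congr rfl fun p' _ => ?_
    rw [Finset.sum_ite_eq Finset.univ (I p'), if_pos (Finset.mem_univ _)]
  have h3 := h.gen κ h1
  have h4 : ∑ δ', κ δ' • ev (D δ') y = ev (D δ) y - ∑ p, c p • ev (D (I p)) y := by
    simp only [hκ, sub_smul, Finset.sum_sub_distrib, ite_smul, one_smul, zero_smul,
      Finset.sum_smul]
    rw [Finset.sum_ite_eq' Finset.univ δ, if_pos (Finset.mem_univ _), Finset.sum_comm]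
    congr 1
    refine Finset.sum_congr rfl fun p' _ => ?_
    rw [Finset.sum_ite_eq Finset.univ (I p'), if_pos (Finset.mem_univ _)]
  rwa [h4] at h3

/-- The choice of the rows. -/
theorem exists_rows [DecidableEq R] {y : σ ⊕ T → K} {M : Matrix R Δ K} {φ : R → σ ⊕ T → K}
    (h : Cl β wT D E sq y M φ) {I : R → Δ} (hI : (M.submatrix id I).det ≠ 0)
    (hs0 : LinearIndependent K fun s : S => gx β wT y s) :
    ∃ b : Finset (S ⊕ Q), (∀ s, Sum.inl s ∈ b) ∧
      LinearIndependent K (fun i : b ⊕ R => vv β wT D E sq y I (Sum.map Subtype.val id i)) ∧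
      (Submodule.span K (Set.range (wv β wT E sq y)) ≤
        Submodule.span K (Set.range fun o : b => wv β wT E sq y o)) ∧
      Module.finrank K (Full β wT D E sq y) = b.card + Fintype.card R := by
  classical
  obtain ⟨w, hw⟩ : ∃ w, w = wv β wT E sq y := ⟨_, rfl⟩
  have hs1 : LinearIndepOn K w (Set.range (Sum.inl : S → S ⊕ Q)) := by
    rw [← Set.image_univ]
    refine LinearIndepOn.image_of_comp _ _ ?_
    rw [linearIndepOn_univ_iff, hw]
    exact hs0
  obtain ⟨b0, -, hsb, hspan, hbi⟩ := exists_linearIndepOn_extension hs1 (Set.subset_univ _)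
  have hbi' : LinearIndependent K (fun i : b0 => w i) := hbi
  have hfin : b0.Finite := by
    have := hbi'.finite
    exact Set.toFinite b0
  obtain ⟨b, hb⟩ : ∃ b : Finset (S ⊕ Q), (b : Set _) = b0 :=
    ⟨hfin.toFinset, hfin.coe_toFinset⟩
  have hbm : ∀ i, i ∈ b ↔ i ∈ b0 := fun i => by rw [← hb, Finset.mem_coe]
  have hbi2 : LinearIndependent K (fun i : b => w i) := by
    have h1 : LinearIndepOn K w (b : Set _) := by rw [hb]; exact hbi
    exact h1
  -- the functionals
  obtain ⟨Φ, hΦ⟩ : ∃ Φ : (σ ⊕ T → K) →ₗ[K] (R → K), ∀ z a, Φ z a = ∑ l, φ a l * z l := by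
    exact ⟨{ toFun := fun z a => ∑ l, φ a l * z l
             map_add' := fun y z => funext fun a => by
               rw [Pi.add_apply, ← Finset.sum_add_distrib]
               exact Finset.sum_congr rfl fun l _ => by rw [Pi.add_apply, mul_add]
             map_smul' := fun r z => funext fun a => by
               rw [RingHom.id_apply, Pi.smul_apply, smul_eq_mul, Finset.mul_sum]
               exact Finset.sum_congr rfl fun l _ => by
                 rw [Pi.smul_apply, smul_eq_mul]
                 ring }, fun _ _ => rfl⟩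
  have hΦw : ∀ o, Φ (wv β wT E sq y o) = 0 := fun o => by
    funext p
    rw [hΦ, Pi.zero_apply]
    exact h.tan p o
  have hΦe : ∀ δ p, Φ (ev (D δ) y) p = M p δ := fun δ p => by
    rw [hΦ]
    exact h.val p δ
  have hind : LinearIndependent K
      (fun i : b ⊕ R => vv β wT D E sq y I (Sum.map Subtype.val id i)) := by
    rw [Fintype.linearIndependent_iff]
    intro g hg
    rw [Fintype.sum_sum_type] at hg
    have h1 : ∀ p, g (Sum.inr p) = 0 := by
      have h2 := congrArg Φ hg
      rw [map_add, map_sum, map_sum, map_zero,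
        Finset.sum_eq_zero (s := Finset.univ) (f := fun x => Φ (g (Sum.inl x) • _)) fun o _ => by
          rw [map_smul]
          change _ • Φ (wv β wT E sq y o) = 0
          rw [hΦw, smul_zero], zero_add] at h2
      have h3 : (M.submatrix id I).mulVec (fun p => g (Sum.inr p)) = 0 := by
        funext p
        have h4 := congrFun h2 p
        rw [Finset.sum_apply] at h4
        rw [Matrix.mulVec, dotProduct, ← h4]
        refine Finset.sum_congr rfl fun p' _ => ?_
        rw [map_smul, Pi.smul_apply, smul_eq_mul]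
        change _ = _ * Φ (ev (D (I p')) y) p
        rw [hΦe, Matrix.submatrix_apply, id, mul_comm]
      have h5 := Matrix.eq_zero_of_mulVec_eq_zero hI h3
      exact fun p => congrFun h5 p
    have h2 : ∀ o : b, g (Sum.inl o) = 0 := by
      have h3 : ∑ o : b, g (Sum.inl o) • w o = 0 := by
        rw [← hg, Finset.sum_eq_zero (s := (Finset.univ : Finset R)) fun p _ => by
          rw [h1 p, zero_smul], add_zero, hw]
        rfl
      exact Fintype.linearIndependent_iff.1 hbi2 _ h3
    rintro (o | p)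
    · exact h2 o
    · exact h1 p
  have hspan2 : Submodule.span K (Set.range (wv β wT E sq y)) ≤
      Submodule.span K (Set.range fun o : b => wv β wT E sq y o) := by
    rw [Submodule.span_le]
    rintro _ ⟨o, rfl⟩
    have h1 := hspan ⟨o, Set.mem_univ _, rfl⟩
    rw [hw, ← hb, Set.image_eq_range] at h1
    exact h1
  refine ⟨b, fun s => ?_, hind, hspan2, ?_⟩
  · rw [hbm]; exact hsb ⟨s, rfl⟩
  · have h1 : Full β wT D E sq y = Submodule.span K (Set.range
        fun i : b ⊕ R => vv β wT D E sq y I (Sum.map Subtype.val id i)) := by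
      apply le_antisymm
      · have h2 : Submodule.span K (Set.range (wv β wT E sq y)) ≤ Submodule.span K (Set.range
            fun i : b ⊕ R => vv β wT D E sq y I (Sum.map Subtype.val id i)) := by
          refine hspan2.trans (Submodule.span_mono ?_)
          rintro _ ⟨o, rfl⟩
          exact ⟨Sum.inl o, rfl⟩
        rw [Full, Submodule.span_le]
        rintro _ (⟨o, rfl⟩ | ⟨δ, rfl⟩)
        · exact h2 (Submodule.subset_span ⟨o, rfl⟩)
        · have h3 := h2 (h.change hI δ)
          have h4 : ∑ p, ((M.submatrix id I)⁻¹.mulVec fun p => M p δ) p • ev (D (I p)) y ∈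
              Submodule.span K (Set.range
                fun i : b ⊕ R => vv β wT D E sq y I (Sum.map Subtype.val id i)) :=
            sum_mem fun p _ => Submodule.smul_mem _ _ (Submodule.subset_span ⟨Sum.inr p, rfl⟩)
          have h5 := add_mem h3 h4
          rwa [sub_add_cancel] at h5
      · rw [Submodule.span_le]
        rintro _ ⟨i, rfl⟩
        exact vv_mem_full y _
    rw [h1, finrank_span_eq_card hind, Fintype.card_sum, Fintype.card_coe]

/-- The matrix of the rows. -/
noncomputable def mx (β : σ → S) (wT : T → S → ℕ) (D : Δ → Derivation ℤ K K)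
    (E : Q → σ → Derivation ℤ K K) (sq : Q → S)
    (y : σ ⊕ T → K) (I : R → Δ) (b : Finset (S ⊕ Q))
    (τ : b ⊕ R → σ ⊕ T) : Matrix (b ⊕ R) (b ⊕ R) K :=
  Matrix.of fun i j => vv β wT D E sq y I (Sum.map Subtype.val id i) (τ j)

/-- Change of the directions in the determinant. -/
theorem det_change [DecidableEq R] [DecidableEq (S ⊕ Q)] {y : σ ⊕ T → K} {M : Matrix R Δ K}
    {φ : R → σ ⊕ T → K}
    (h : Cl β wT D E sq y M φ) {I : R → Δ} (hI : (M.submatrix id I).det ≠ 0)
    {b : Finset (S ⊕ Q)} (τ : b ⊕ R → σ ⊕ T)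
    (hspan : Submodule.span K (Set.range (wv β wT E sq y)) ≤
        Submodule.span K (Set.range fun o : b => wv β wT E sq y o)) (J : R → Δ) :
    (mx β wT D E sq y J b τ).det =
      (M.submatrix id J).det / (M.submatrix id I).det * (mx β wT D E sq y I b τ).det := by
  classical
  obtain ⟨N, hN⟩ : ∃ N : Matrix R R K, N = (M.submatrix id I)⁻¹ * M.submatrix id J := ⟨_, rfl⟩
  have h1 : ∀ p : R, ∃ c : b → K, ev (D (J p)) y = ∑ o : b, c o • wv β wT E sq y o +
      ∑ p', N p' p • ev (D (I p')) y := by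
    intro p
    have h2 := hspan (h.change hI (J p))
    rw [Submodule.mem_span_range_iff_exists_fun] at h2
    obtain ⟨c, hc⟩ := h2
    refine ⟨c, ?_⟩
    rw [hc]
    have h3 : ∀ p', ((M.submatrix id I)⁻¹.mulVec fun p => M p (J p)) p' = N p' p ∨ True :=
      fun _ => Or.inr trivial
    have h4 : ((M.submatrix id I)⁻¹.mulVec fun r => M r (J p)) = fun p' => N p' p := by
      funext p'
      rw [hN, Matrix.mul_apply]
      rfl
    rw [h4, sub_add_cancel]
  choose c hc using h1
  have h2 : mx β wT D E sq y J b τ = Matrix.fromBlocks (1 : Matrix b b K) 0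
      (Matrix.of fun p o => c p o) N.transpose * mx β wT D E sq y I b τ := by
    ext i j
    rw [Matrix.mul_apply, Fintype.sum_sum_type]
    rcases i with o | p
    · simp only [Matrix.fromBlocks_apply₁₁, Matrix.fromBlocks_apply₁₂, Matrix.zero_apply,
        zero_mul, Finset.sum_const_zero, add_zero]
      rw [Finset.sum_eq_single o]
      · rw [Matrix.one_apply_eq, one_mul]
        rfl
      · intro o' _ ho
        rw [Matrix.one_apply_ne (Ne.symm ho), zero_mul]
      · intro h; exact absurd (Finset.mem_univ _) h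
    · simp only [Matrix.fromBlocks_apply₂₁, Matrix.fromBlocks_apply₂₂, Matrix.transpose_apply,
        Matrix.of_apply]
      have h3 := congrFun (hc p) (τ j)
      rw [Pi.add_apply, Finset.sum_apply, Finset.sum_apply] at h3
      exact h3
  have h3 : N.det = (M.submatrix id J).det / (M.submatrix id I).det := by
    rw [hN, Matrix.det_mul, Matrix.det_nonsing_inv, Ring.inverse_eq_inv', div_eq_inv_mul]
  rw [h2, Matrix.det_mul, Matrix.det_fromBlocks_zero₁₂, Matrix.det_one, one_mul,
    Matrix.det_transpose, h3]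

theorem det_lam [DecidableEq R] [DecidableEq (S ⊕ Q)] {y : σ ⊕ T → K} {lam : S → K}
    (hl : ∀ s, lam s ≠ 0) {b : Finset (S ⊕ Q)}
    (hb : ∀ s, Sum.inl s ∈ b) (τ : b ⊕ R → σ ⊕ T) (I : R → Δ) :
    (mx β wT D E sq (gsc β wT lam y) I b τ).det =
      (∏ j : b ⊕ R, ∏ s, lam s ^ gw β wT (τ j) s) *
        ((∏ i : b ⊕ R, fac (R := R) sq lam (Sum.map Subtype.val id i)) *
          (mx β wT D E sq y I b τ).det) := by
  obtain ⟨κ, hκ0, hκ⟩ := vv_scale (wT := wT) D E sq y hl I
  exact det_blk (fun (i j : b ⊕ R) =>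
      vv β wT D E sq (gsc β wT lam y) I (Sum.map Subtype.val id i) (τ j))
    (fun (i j : b ⊕ R) => vv β wT D E sq y I (Sum.map Subtype.val id i) (τ j))
    (fun j => ∏ s, lam s ^ gw β wT (τ j) s)
    (fun i => fac sq lam (Sum.map Subtype.val id i))
    (fun i => κ (Sum.map Subtype.val id i)) (fun s => Sum.inl ⟨Sum.inl s, hb s⟩)
    (fun s s' => hκ0 s s') fun i j => hκ _ (τ j)

end

end Pool.Agent.K6.H80.VB
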