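import Pool.Agent.K6.H80.FV.Local
import Pool.Agent.K6.H80.VB.Rows

/-!
The local height inequality.
-/

set_option autoImplicit false
set_option linter.unusedSectionVars false

open MvPolynomial FF Pool.Agent.W603.LV Pool.Agent.W603.PV
open Pool.Agent.TH812.GV2 (Loc)
open Pool.Agent.K6.H80.LV (det_blk po po_le exists_po exists_sc sc)
open Pool.Agent.K6.H80.FV (gw gx gx_inl sum_gx_inl gsc prod_gw_inl gsc_inl der_gsc ex gw_split
  det_rank1 ord_prod_pow ord_factors)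

namespace Pool.Agent.K6.H80.VB

variable {k K : Type} [Field k] [Field K] [Algebra k K] {σ S T Δ R Q : Type} [Fintype σ]
  [Fintype S] [Fintype T] [Fintype Δ] [Fintype R]

open scoped Classical in
/-- The weight of the rows. -/
noncomputable def ft (sq : Q → S) (i : (S ⊕ Q) ⊕ R) (s : S) : ℕ :=
  match i with
  | Sum.inl (Sum.inr q) => if sq q = s then 1 else 0
  | _ => 0

/-- The number of the columns in a block. -/
noncomputable def col (β : σ → S) {b : Finset (S ⊕ Q)} (τ : b ⊕ R → σ ⊕ T) (s : S) : ℕ :=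
  ∑ j : b ⊕ R, gw β (fun (_ : T) _ => 0) (τ j) s

/-- The number of the rows of the tangent vector fields of a block. -/
noncomputable def tw (sq : Q → S) (b : Finset (S ⊕ Q)) (s : S) : ℕ :=
  ∑ o : b, ft (R := Empty) sq (Sum.inl o.1) s

theorem tw_eq (sq : Q → S) (b : Finset (S ⊕ Q)) (s : S) :
    ∑ i : b ⊕ R, ft (R := R) sq (Sum.map Subtype.val id i) s = tw sq b s := by
  rw [Fintype.sum_sum_type, tw]
  have h1 : ∑ p : R, ft (R := R) sq (Sum.map Subtype.val id (Sum.inr p : b ⊕ R)) s = 0 :=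
    Finset.sum_eq_zero fun p _ => rfl
  rw [h1, add_zero]
  refine Finset.sum_congr rfl fun o _ => ?_
  obtain ⟨(s' | q), ho⟩ := o
  · rfl
  · rfl

theorem fac_eq (sq : Q → S) (lam : S → K) (i : (S ⊕ Q) ⊕ R) :
    fac sq lam i = ∏ s, lam s ^ ft sq i s := by
  classical
  rcases i with (s | q) | a
  · simp [fac, ft]
  · simp only [fac, ft]
    rw [Finset.prod_eq_single (sq q)]
    · rw [if_pos rfl, pow_one]
    · intro s _ hs
      rw [if_neg (Ne.symm hs), pow_zero]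
    · intro h; exact absurd (Finset.mem_univ _) h
  · simp [fac, ft]

/-- The local order of the classes. -/
noncomputable def lw [DecidableEq R] (P : Place k K) (M : Matrix R Δ K) : ℤ :=
  ⨅ I : {I : R → Δ // (M.submatrix id I).det ≠ 0}, P.ord (M.submatrix id I.1).det

theorem lw_le [DecidableEq R] {P : Place k K} {M : Matrix R Δ K} {I : R → Δ}
    (hI : (M.submatrix id I).det ≠ 0) : lw P M ≤ P.ord (M.submatrix id I).det := by
  unfold lw
  exact ciInf_le (Finite.bddBelow_range _)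
    (⟨I, hI⟩ : {I : R → Δ // (M.submatrix id I).det ≠ 0})

theorem exists_lw [DecidableEq R] (P : Place k K) {M : Matrix R Δ K} {I : R → Δ}
    (hI : (M.submatrix id I).det ≠ 0) :
    ∃ J : R → Δ, (M.submatrix id J).det ≠ 0 ∧ P.ord (M.submatrix id J).det = lw P M := by
  have : Nonempty {I : R → Δ // (M.submatrix id I).det ≠ 0} := ⟨⟨I, hI⟩⟩
  obtain ⟨J, hJ⟩ := exists_eq_ciInf_of_finite
    (f := fun I : {I : R → Δ // (M.submatrix id I).det ≠ 0} => P.ord (M.submatrix id I.1).det)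
  exact ⟨J.1, J.2, hJ⟩

variable [IsAlgClosed k] [CharZero k] [IsFF k K]
  {β : σ → S} {wT : T → S → ℕ} {D : Δ → Derivation ℤ K K} {E : Q → σ → Derivation ℤ K K}
  {sq : Q → S}

open scoped Classical in
/-- The order of the determinant at a point with integral coordinates. -/
theorem ge_mx [DecidableEq R] {P : Place k K} {δ : Derivation ℤ K K} (hδ : Loc P δ) {q e : ℤ} (hq : 0 ≤ q)
    (he : 0 ≤ e) {y : σ ⊕ T → K} (hy : ∀ l, Ge P 0 (y (Sum.inl l)))
    (hdD : ∀ i, Ge P (-e) (D i (unif P))) (hdE : ∀ o l, Ge P (-e) (E o l (unif P)))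
    (hlD : ∀ i g f, Ge P g f → Ge P (g - q) (D i f - D i (unif P) * δ f))
    (hlE : ∀ o l g f, Ge P g f → Ge P (g - q) (E o l f - E o l (unif P) * δ f))
    (I : R → Δ) (b : Finset (S ⊕ Q)) (τ : b ⊕ R → σ ⊕ T) :
    Ge P (∑ j : b ⊕ R, P.ord (ex y (τ j)) - (b.card + Fintype.card R : ℕ) * q - e -
      (if ∃ t, P.ord (y (Sum.inr t)) ≠ 0 then 1 else 0)) (mx β wT D E sq y I b τ).det := by
  obtain ⟨κ, hκ⟩ : ∃ κ : σ ⊕ T → ℤ, ∀ γ, κ γ = P.ord (ex y γ) := ⟨_, fun _ => rfl⟩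
  obtain ⟨p, hp⟩ : ∃ p : ℤ, p = if ∃ t, P.ord (y (Sum.inr t)) ≠ 0 then 1 else 0 := ⟨_, rfl⟩
  have hp0 : 0 ≤ p := by rw [hp]; split_ifs <;> norm_num
  simp only [← hκ]
  rw [← hp]
  have hκy : ∀ γ, Ge P (κ γ) (y γ) := by
    rintro (l | t)
    · rw [hκ, ex, Sum.elim_inl, P.ord_one]
      exact hy l
    · rw [hκ, ex, Sum.elim_inr]
      exact Or.inr le_rfl
  have hw : ∀ γ, Ge P (κ γ - p) (δ (y γ)) := by
    rintro (l | t)
    · rw [hκ, ex, Sum.elim_inl, P.ord_one]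
      exact (hδ.2.2 _ (hy l)).mono (by omega)
    · rw [hκ, ex, Sum.elim_inr]
      by_cases h0 : P.ord (y (Sum.inr t)) = 0
      · rw [h0]
        exact (hδ.2.2 _ (Or.inr h0.ge)).mono (by omega)
      · have hp1 : p = 1 := by rw [hp, if_pos ⟨t, h0⟩]
        rw [hp1]
        exact (Pool.Agent.TH812.GV.ge_der P (q := 0) (D := δ)
          (fun f hf => by rw [neg_zero]; exact hδ.2.2 f hf) (Or.inr le_rfl)).mono (by omega)
  -- the decomposition of the rows
  obtain ⟨α, hα⟩ : ∃ α : (S ⊕ Q) ⊕ R → K, ∀ i, α i = match i with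
      | Sum.inl (Sum.inl _) => 0
      | Sum.inl (Sum.inr o) => ∑ l, if β l = sq o then y (Sum.inl l) * E o l (unif P) else 0
      | Sum.inr a => D (I a) (unif P) := ⟨_, fun _ => rfl⟩
  have hαe : ∀ i, Ge P (-e) (α i) := by
    rintro ((s | o) | a)
    · rw [hα]; exact Ge.zero
    · rw [hα]
      refine Ge.sum _ _ fun l _ => ?_
      split_ifs
      · refine Ge.mono (by omega : -e ≤ 0 + -e) ?_
        exact (hy _).mul (hdE _ _)
      · exact Ge.zero
    · rw [hα]; exact hdD _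
  have hre : ∀ i γ, Ge P (κ γ - q) (vv β wT D E sq y I i γ - α i * δ (y γ)) := by
    rintro ((s | o) | a) γ
    · rw [hα]
      simp only [vv, wv, gx, zero_mul, sub_zero]
      have h1 := (Ge.natCast (P := P) (gw β wT γ s)).mul (hκy γ)
      exact h1.mono (by omega)
    · rw [hα]
      simp only [vv, wv, tv, Finset.sum_apply]
      rw [Finset.sum_mul, ← Finset.sum_sub_distrib]
      refine Ge.sum _ _ fun l _ => ?_
      split_ifs with hl
      · simp only [Pi.smul_apply, smul_eq_mul, ev]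
        have h1 := (hy l).mul (hlE o l _ _ (hκy γ))
        rw [zero_add] at h1
        convert h1 using 1
        ring
      · simp only [Pi.zero_apply, zero_mul, sub_zero]
        exact Ge.zero
    · rw [hα]
      exact hlD _ _ _ (hκy γ)
  have h1 := det_rank1 P (mx β wT D E sq y I b τ) (fun i => α (Sum.map Subtype.val id i))
    (fun j => δ (y (τ j)))
    (Matrix.of fun i j => vv β wT D E sq y I (Sum.map Subtype.val id i) (τ j) -
      α (Sum.map Subtype.val id i) * δ (y (τ j))) (fun i j => by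
      rw [Matrix.of_apply, mx, Matrix.of_apply]
      ring) hq hp0 he (fun j => κ (τ j)) (fun i => hαe _) (fun j => hw (τ j))
      fun i j => hre _ (τ j)
  rw [Fintype.card_sum, Fintype.card_coe] at h1
  exact h1

open scoped Classical in
/-- The local inequality. -/
theorem local_est [DecidableEq R] {c : S → σ} (hc : ∀ s, β (c s) = s) {P : Place k K} {δ : Derivation ℤ K K}
    (hδ : Loc P δ) {q e : ℤ} (hq : 0 ≤ q) (he : 0 ≤ e) {y : σ ⊕ T → K}
    (hx : ∀ s, y (Sum.inl (c s)) ≠ 0) (hz : ∀ t, y (Sum.inr t) ≠ 0)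
    (hdD : ∀ i, Ge P (-e) (D i (unif P))) (hdE : ∀ o l, Ge P (-e) (E o l (unif P)))
    (hlD : ∀ i g f, Ge P g f → Ge P (g - q) (D i f - D i (unif P) * δ f))
    (hlE : ∀ o l g f, Ge P g f → Ge P (g - q) (E o l f - E o l (unif P) * δ f))
    {M : Matrix R Δ K} {φ : R → σ ⊕ T → K} (hcl : Cl β wT D E sq y M φ) {I : R → Δ}
    (hI : (M.submatrix id I).det ≠ 0)
    {b : Finset (S ⊕ Q)} (hbp : ∀ s, Sum.inl s ∈ b)
    (τ : b ⊕ R → σ ⊕ T) (hspan : Submodule.span K (Set.range (wv β wT E sq y)) ≤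
        Submodule.span K (Set.range fun o : b => wv β wT E sq y o))
    (hdet : (mx β wT D E sq y I b τ).det ≠ 0) :
    ∑ s, ((col β τ s + tw sq b s : ℕ) : ℤ) * po β P (y ∘ Sum.inl) s - lw P M -
      (b.card + Fintype.card R : ℕ) * q - e -
      (if ∃ t, P.ord (y (Sum.inr t)) ≠ ∑ s, (wT t s : ℤ) * po β P (y ∘ Sum.inl) s
        then 1 else 0) ≤
      P.ord ((mx β wT D E sq y I b τ).det /
        ((M.submatrix id I).det * ∏ j : b ⊕ R, ex y (τ j))) := by
  obtain ⟨x, hxd⟩ : ∃ x : σ → K, x = y ∘ Sum.inl := ⟨_, rfl⟩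
  have hxl : ∀ l, y (Sum.inl l) = x l := fun l => by rw [hxd]; rfl
  have hx' : ∀ s, x (c s) ≠ 0 := fun s => by rw [← hxl]; exact hx s
  obtain ⟨lam, x', ε, hl, hlo, hxx, hx'0, hε, hε1⟩ := exists_sc hc P hx'
  obtain ⟨y', hy'⟩ : ∃ y' : σ ⊕ T → K, y' = Sum.elim x' fun t =>
    y (Sum.inr t) / ∏ s, lam s ^ wT t s := ⟨_, rfl⟩
  have hL0 : ∀ t, (∏ s, lam s ^ wT t s) ≠ 0 := fun t =>
    Finset.prod_ne_zero_iff.2 fun s _ => pow_ne_zero _ (hl s)
  have hyy : y = gsc β wT lam y' := by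
    funext γ
    rcases γ with l | t
    · rw [gsc_inl, hy', Sum.elim_inl, hxl, hxx, sc]
    · rw [gsc, hy', Sum.elim_inr]
      have h1 : ∏ s, lam s ^ gw β wT (Sum.inr t : σ ⊕ T) s = ∏ s, lam s ^ wT t s := rfl
      rw [h1, mul_div_cancel₀ _ (hL0 t)]
  obtain ⟨J, hJ, hJl⟩ := exists_lw P hI
  have h1 := det_change hcl hI τ hspan J
  have h2 := det_lam (β := β) (wT := wT) (D := D) (E := E) (sq := sq) (y := y') hl hbp τ J
  rw [← hyy] at h2
  rw [h2] at h1
  obtain ⟨d0, hd0⟩ : ∃ d0, d0 = (mx β wT D E sq y I b τ).det := ⟨_, rfl⟩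
  obtain ⟨d1, hd1⟩ : ∃ d1, d1 = (mx β wT D E sq y' J b τ).det := ⟨_, rfl⟩
  rw [← hxd] 
  rw [← hd0] at hdet h1 ⊢
  rw [← hd1] at h1
  obtain ⟨Φ, hΦ⟩ : ∃ Φ, Φ = (∏ j : b ⊕ R, ∏ s, lam s ^ gw β wT (τ j) s) *
    (∏ i : b ⊕ R, fac (R := R) sq lam (Sum.map Subtype.val id i)) := ⟨_, rfl⟩
  have hf1 : (∏ j : b ⊕ R, ∏ s, lam s ^ gw β wT (τ j) s) ≠ 0 :=
    Finset.prod_ne_zero_iff.2 fun j _ => Finset.prod_ne_zero_iff.2 fun s _ =>
      pow_ne_zero _ (hl s)
  have hf2 : (∏ i : b ⊕ R, fac (R := R) sq lam (Sum.map Subtype.val id i)) =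
      ∏ i : b ⊕ R, ∏ s, lam s ^ ft (R := R) sq (Sum.map Subtype.val id i) s :=
    Finset.prod_congr rfl fun i _ => fac_eq sq lam _
  have hf3 : (∏ i : b ⊕ R, ∏ s, lam s ^ ft (R := R) sq (Sum.map Subtype.val id i) s) ≠ 0 :=
    Finset.prod_ne_zero_iff.2 fun j _ => Finset.prod_ne_zero_iff.2 fun s _ =>
      pow_ne_zero _ (hl s)
  rw [hf2] at hΦ h1
  have hΦ0 : Φ ≠ 0 := by
    rw [hΦ]
    exact mul_ne_zero hf1 hf3
  have h3 : Φ * d1 = d0 / (M.submatrix id I).det * (M.submatrix id J).det := by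
    rw [hΦ, mul_assoc, h1]
    field_simp
  have hq0 : d0 / (M.submatrix id I).det ≠ 0 := div_ne_zero hdet hI
  have hd10 : d1 ≠ 0 := by
    intro h0
    rw [h0, mul_zero] at h3
    exact mul_ne_zero hq0 hJ h3.symm
  have h5 := congrArg P.ord h3
  rw [P.ord_mul hΦ0 hd10, P.ord_mul hq0 hJ, hJl] at h5
  obtain ⟨et, het⟩ : ∃ et : S → ℕ, ∀ s, et s =
    ∑ j : b ⊕ R, Sum.elim (fun _ : σ => 0) (fun t => wT t s) (τ j) := ⟨_, fun _ => rfl⟩
  have h7 : P.ord Φ = ∑ s, ((col β τ s + et s + tw sq b s : ℕ) : ℤ) * po β P x s := by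
    rw [hΦ, P.ord_mul hf1 hf3, ord_factors P hl, ord_factors P hl, ← Finset.sum_add_distrib]
    refine Finset.sum_congr rfl fun s _ => ?_
    have h8 : ∑ j : b ⊕ R, gw β wT (τ j) s = col β τ s + et s := by
      rw [het, col, ← Finset.sum_add_distrib]
      exact Finset.sum_congr rfl fun j _ => gw_split β wT (τ j) s
    rw [hlo, h8, ← add_mul, tw_eq]
    push_cast
    rfl
  have hex0 : ∀ j : b ⊕ R, ex y (τ j) ≠ 0 := by
    intro j
    rcases τ j with l | t
    · exact one_ne_zero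
    · exact hz t
  have hexp : (∏ j : b ⊕ R, ex y (τ j)) ≠ 0 := Finset.prod_ne_zero_iff.2 fun j _ => hex0 j
  have hordt : ∀ t, P.ord (y' (Sum.inr t)) =
      P.ord (y (Sum.inr t)) - ∑ s, (wT t s : ℤ) * po β P x s := by
    intro t
    rw [hy', Sum.elim_inr, P.ord_div (hz t) (hL0 t), ord_prod_pow P hl]
    simp only [hlo]
  have h10 : ∑ j : b ⊕ R, P.ord (ex y' (τ j)) = P.ord (∏ j : b ⊕ R, ex y (τ j)) -
      ∑ s, (et s : ℤ) * po β P x s := by
    rw [Pool.Agent.TH145.GC.ord_prod P _ _ fun j _ => hex0 j]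
    have h11 : ∀ γ : σ ⊕ T, P.ord (ex y' γ) = P.ord (ex y γ) -
        ∑ s, ((Sum.elim (fun _ : σ => 0) (fun t => wT t s) γ : ℕ) : ℤ) * po β P x s := by
      rintro (l | t)
      · simp [ex]
      · simp only [ex, Sum.elim_inr]
        exact hordt t
    rw [Finset.sum_congr rfl fun j _ => h11 (τ j), Finset.sum_sub_distrib, Finset.sum_comm]
    congr 1
    refine Finset.sum_congr rfl fun s _ => ?_
    rw [← Finset.sum_mul, het]
    push_cast
    rfl
  have h8 := (ge_mx (β := β) (wT := wT) (D := D) (E := E) (sq := sq) hδ hq he (y := y') (fun l => by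
    rw [hy', Sum.elim_inl]; exact hx'0 l) hdD hdE hlD hlE J b τ)
  rw [← hd1] at h8
  have h9 := h8.resolve_left hd10
  rw [h10] at h9
  have hiff : (∃ t, P.ord (y' (Sum.inr t)) ≠ 0) ↔
      ∃ t, P.ord (y (Sum.inr t)) ≠ ∑ s, (wT t s : ℤ) * po β P x s := by
    refine exists_congr fun t => ?_
    rw [hordt, Ne, sub_eq_zero]
  have hif : (if ∃ t, P.ord (y' (Sum.inr t)) ≠ 0 then (1 : ℤ) else 0) =
      if ∃ t, P.ord (y (Sum.inr t)) ≠ ∑ s, (wT t s : ℤ) * po β P x s then 1 else 0 := by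
    by_cases h : ∃ t, P.ord (y' (Sum.inr t)) ≠ 0
    · rw [if_pos h, if_pos (hiff.1 h)]
    · rw [if_neg h, if_neg fun h' => h (hiff.2 h')]
  rw [hif] at h9
  have h12 : P.ord (d0 / ((M.submatrix id I).det * ∏ j : b ⊕ R, ex y (τ j))) =
      P.ord (d0 / (M.submatrix id I).det) - P.ord (∏ j : b ⊕ R, ex y (τ j)) := by
    rw [← div_div, P.ord_div hq0 hexp]
  rw [h7] at h5
  rw [h12]
  have h13 : ∑ s, ((col β τ s + tw sq b s : ℕ) : ℤ) * po β P x s =
      ∑ s, ((col β τ s + et s + tw sq b s : ℕ) : ℤ) * po β P x s -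
        ∑ s, (et s : ℤ) * po β P x s := by
    rw [← Finset.sum_sub_distrib]
    exact Finset.sum_congr rfl fun s _ => by push_cast; ring
  rw [h13]
  linarith

end Pool.Agent.K6.H80.VB
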