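import Pool.Agent.K6.H80.FV.Main2
import Pool.Agent.K6.H80.VB.Local

/-!
The height inequality.
-/

set_option autoImplicit false
set_option linter.unusedSectionVars false

open MvPolynomial FF Pool.Agent.W603.LV Pool.Agent.W603.PV
open Pool.Agent.TH812.GV2 (Loc)
open Pool.Agent.K6.H80.LV (det_blk po po_le exists_po exists_sc sc Tan bp px px_apply bht po_finite)
open Pool.Agent.K6.H80.FV (gw gx gx_inl sum_gx_inl gsc prod_gw_inl gsc_inl der_gsc ex gw_split
  det_rank1 ord_prod_pow ord_factors pr tan_le tan_blk_le lo sht lo_le exists_lo lo_finite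
  sum_places2 minors_eq exists_split)

namespace Pool.Agent.K6.H80.VB

section tan

variable {k0 L : Type} [Field k0] [Field L] [Algebra k0 L] {σ S T Δ Q : Type} [Fintype σ]
  [Fintype S] [Fintype T] {β : σ → S} {wT : T → S → ℕ}
  {D : Δ → Derivation ℤ L L} {E : Q → σ → Derivation ℤ L L} {sq : Q → S}

theorem full_le_tan (hD : ∀ i (r : k0), D i (algebraMap k0 L r) = 0)
    (hE : ∀ q l (r : k0), E q l (algebraMap k0 L r) = 0) (y : σ ⊕ T → L) :
    (Full β wT D E sq y).map (pr L σ T) ≤ Tan k0 β (y ∘ Sum.inl) := by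
  classical
  have hE' : ∀ δ : Derivation ℤ L L, (∀ r : k0, δ (algebraMap k0 L r) = 0) →
      pr L σ T (ev δ y) ∈ Tan k0 β (y ∘ Sum.inl) := fun δ hδ =>
    ⟨0, δ, hδ, fun l => by rw [Pi.zero_apply, zero_mul, zero_add]; rfl⟩
  rw [Submodule.map_le_iff_le_comap, Full, Submodule.span_le]
  rintro _ (⟨o, rfl⟩ | ⟨δ, rfl⟩)
  · rcases o with s | q
    · refine ⟨fun s' => if s' = s then 1 else 0, 0, fun _ => rfl, fun l => ?_⟩
      change gx β wT y s (Sum.inl l) = _
      rw [gx_inl]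
      simp only [Derivation.zero_apply, add_zero, ite_mul, one_mul, zero_mul,
        Function.comp_apply]
    · change pr L σ T (wv β wT E sq y (Sum.inr q)) ∈ Tan k0 β (y ∘ Sum.inl)
      simp only [wv, tv, map_sum]
      refine sum_mem fun l _ => ?_
      split_ifs
      · rw [map_smul]
        exact Submodule.smul_mem _ _ (hE' _ (hE q l))
      · rw [map_zero]
        exact zero_mem _
  · exact hE' _ (hD δ)

end tan

section glob

variable {k K : Type} [Field k] [Field K] [Algebra k K] {σ S T Δ R Q : Type} [Fintype σ]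
  [Fintype S] [Fintype T] [Fintype Δ] [Fintype R] [DecidableEq R]

variable (k) in
/-- The height of the quotient with the classes `M`. -/
noncomputable def wht (M : Matrix R Δ K) : ℤ := - ∑ᶠ P : Place k K, lw P M

open scoped Classical in
/-- The total number of the rows. -/
theorem num2 {sq : Q → S} {b : Finset (S ⊕ Q)} (hbV : ∀ s, Sum.inl s ∈ b) :
    ∑ s, tw sq b s + Fintype.card S ≤ b.card := by
  obtain ⟨b1, hb1⟩ : ∃ b1 : Finset (S ⊕ Q), b1 = (b.filter fun i => ∃ q, i = Sum.inr q) :=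
    ⟨_, rfl⟩
  obtain ⟨b2, hb2⟩ : ∃ b2 : Finset (S ⊕ Q), b2 = Finset.univ.image (Sum.inl : S → S ⊕ Q) :=
    ⟨_, rfl⟩
  have h2 : b2.card = Fintype.card S := by
    rw [hb2, Finset.card_image_of_injective _ Sum.inl_injective, Finset.card_univ]
  have h3 : Disjoint b1 b2 := by
    rw [Finset.disjoint_left]
    intro i hi hi'
    rw [hb1, Finset.mem_filter] at hi
    obtain ⟨-, q, hq⟩ := hi
    rw [hb2, Finset.mem_image] at hi'
    obtain ⟨s, -, rfl⟩ := hi'
    simp at hq
  have h4 : b1 ∪ b2 ⊆ b := by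
    refine Finset.union_subset ?_ ?_
    · rw [hb1]; exact Finset.filter_subset _ _
    · rw [hb2]
      intro i hi
      obtain ⟨s, -, rfl⟩ := Finset.mem_image.1 hi
      exact hbV s
  have h5 := Finset.card_le_card h4
  rw [Finset.card_union_of_disjoint h3, h2] at h5
  have h6 : ∑ s, tw sq b s ≤ b1.card := by
    unfold tw
    rw [Finset.sum_comm, Finset.sum_coe_sort b
      (fun i => ∑ s, ft (R := Empty) sq (Sum.inl i) s), hb1, Finset.card_filter]
    refine Finset.sum_le_sum fun i _ => ?_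
    rcases i with s' | q
    · simp [ft]
    · simp only [ft]
      rw [Finset.sum_ite_eq Finset.univ (sq q) (fun _ => 1), if_pos (Finset.mem_univ _),
        if_pos ⟨q, rfl⟩]
  omega

variable [IsAlgClosed k] [CharZero k] [IsFF k K]
  {β : σ → S} {wT : T → S → ℕ} {D : Δ → Derivation ℤ K K} {E : Q → σ → Derivation ℤ K K}
  {sq : Q → S} {c : S → σ}

theorem lw_finite {M : Matrix R Δ K} {I : R → Δ} (hI : (M.submatrix id I).det ≠ 0) :
    {P : Place k K | lw P M ≠ 0}.Finite := by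
  classical
  obtain ⟨U, hU⟩ := exists_supp (k := k) (Finset.univ : Finset (R → Δ))
    fun τ => (M.submatrix id τ).det
  refine U.finite_toSet.subset fun P hP => ?_
  by_contra hcon
  apply hP
  obtain ⟨τ, -, hτ⟩ := exists_lw P hI
  rw [← hτ]
  by_contra h
  exact hcon (hU τ (Finset.mem_univ _) P h)

open scoped Classical in
/-- The height inequality, with the height of the space of the vector fields. -/
theorem ineq2 (hc : ∀ s, β (c s) = s) {y : σ ⊕ T → K}
    (hx : ∀ s, y (Sum.inl (c s)) = 1) (hz : ∀ t, y (Sum.inr t) ≠ 0)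
    {M : Matrix R Δ K} {φ : R → σ ⊕ T → K} (hcl : Cl β wT D E sq y M φ) {I : R → Δ}
    (hI : (M.submatrix id I).det ≠ 0)
    {q e : Place k K → ℤ} (hq0 : ∀ P, 0 ≤ q P) (he0 : ∀ P, 0 ≤ e P)
    (hqf : {P | q P ≠ 0}.Finite) (hef : {P | e P ≠ 0}.Finite)
    (hdD : ∀ (P : Place k K) i, Ge P (-e P) (D i (unif P)))
    (hdE : ∀ (P : Place k K) o l, Ge P (-e P) (E o l (unif P)))
    (hlD : ∀ (P : Place k K) δ, Loc P δ → ∀ i g f, Ge P g f →
      Ge P (g - q P) (D i f - D i (unif P) * δ f))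
    (hlE : ∀ (P : Place k K) δ, Loc P δ → ∀ o l g f, Ge P g f →
      Ge P (g - q P) (E o l f - E o l (unif P) * δ f)) :
    ∃ (ρ : ℕ) (u : Fin ρ → σ → K) (w : S → ℕ), LinearIndependent K u ∧
      Submodule.span K (Set.range u) = (Full β wT D E sq y).map (pr K σ T) ∧
      ∑ s, w s + Fintype.card R + Fintype.card S ≤ ρ + Fintype.card T ∧
      wht k M - ∑ s, (w s : ℤ) * bht k β (y ∘ Sum.inl) s + sht k β (y ∘ Sum.inl) u ≤
      ∑ᶠ P : Place k K, ((if ∃ t, P.ord (y (Sum.inr t)) ≠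
        ∑ s, (wT t s : ℤ) * po β P (y ∘ Sum.inl) s then 1 else 0) +
          (e P + (ρ + Fintype.card T : ℕ) * q P)) := by
  have hx0 : ∀ s, y (Sum.inl (c s)) ≠ 0 := fun s => by rw [hx]; exact one_ne_zero
  have hs0 : LinearIndependent K fun s : S => gx β wT y s := by
    rw [Fintype.linearIndependent_iff]
    intro r hr s
    have h2 := congrFun hr (Sum.inl (c s))
    simp only [Finset.sum_apply, Pi.smul_apply, smul_eq_mul, Pi.zero_apply] at h2
    rw [sum_gx_inl, hc, hx, mul_one] at h2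
    exact h2
  obtain ⟨b, hbV, hbi, hspan, hcard⟩ := exists_rows hcl hI hs0
  obtain ⟨ρ, t, u, w, θ, hu, huW, hWw, hR, htT, -, g, hg, hgτ⟩ :=
    exists_split (Full β wT D E sq y)
  have hbc : b.card + Fintype.card R = ρ + t := by rw [← hcard]; exact hR
  have eb : Nonempty ((b ⊕ R) ≃ Fin ρ ⊕ Fin t) := by
    rw [← Fintype.card_eq, Fintype.card_sum, Fintype.card_coe, Fintype.card_sum, Fintype.card_fin,
      Fintype.card_fin, hbc]
  obtain ⟨eb⟩ := eb
  obtain ⟨g', hg', hgg⟩ := minors_eq hbi (fun i => hWw (vv_mem_full y _)) eb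
  -- the determinants
  obtain ⟨τb, hτb⟩ : ∃ τb : (Fin ρ → σ) → b ⊕ R → σ ⊕ T, ∀ τ j, τb τ j =
    Sum.elim (fun a => Sum.inl (τ a)) (fun a => Sum.inr (θ a)) (eb j) := ⟨_, fun _ _ => rfl⟩
  have hmx : ∀ τ : Fin ρ → σ, (mx β wT D E sq y I b (τb τ)).det =
      (Matrix.of fun i j => u i (τ j)).det * (g' * g) := by
    intro τ
    have h1 := hgg (Sum.elim (fun a => Sum.inl (τ a)) (fun a => Sum.inr (θ a)))
    rw [hgτ] at h1
    have h2 : (mx β wT D E sq y I b (τb τ)) = Matrix.of fun i j : b ⊕ R =>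
        vv β wT D E sq y I (Sum.map Subtype.val id i)
          (Sum.elim (fun a => Sum.inl (τ a)) (fun a => Sum.inr (θ a)) (eb j)) := by
      ext i j
      rw [mx, Matrix.of_apply, Matrix.of_apply, hτb]
    rw [h2, h1]
    ring
  have hex : ∀ τ : Fin ρ → σ, ∏ j : b ⊕ R, ex y (τb τ j) = ∏ a, y (Sum.inr (θ a)) := by
    intro τ
    simp only [hτb]
    rw [Equiv.prod_comp eb (fun j => ex y (Sum.elim (fun a => Sum.inl (τ a))
      (fun a => Sum.inr (θ a)) j)), Fintype.prod_sum_type]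
    simp [ex]
  have hcol : ∀ (τ : Fin ρ → σ) (v : S → ℤ), ∑ s, (col β (τb τ) s : ℤ) * v s =
      ∑ j, v (β (τ j)) := by
    intro τ v
    have h1 : ∀ s, (col β (τb τ) s : ℤ) = ∑ j, if β (τ j) = s then 1 else 0 := by
      intro s
      unfold col
      simp only [hτb]
      rw [Equiv.sum_comp eb (fun j => gw β (fun (_ : T) _ => 0) (Sum.elim (fun a => Sum.inl (τ a))
        (fun a => Sum.inr (θ a)) j) s), Fintype.sum_sum_type]
      simp [gw]
    simp only [h1, Finset.sum_mul]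
    rw [Finset.sum_comm]
    refine Finset.sum_congr rfl fun j _ => ?_
    simp
  obtain ⟨C0, hC0⟩ : ∃ C0 : Place k K → ℤ, ∀ P, C0 P = (if ∃ t, P.ord (y (Sum.inr t)) ≠
        ∑ s, (wT t s : ℤ) * po β P (y ∘ Sum.inl) s then 1 else 0) +
          (e P + (ρ + Fintype.card T : ℕ) * q P) := ⟨_, fun _ => rfl⟩
  have hp : ∀ s, {P : Place k K | po β P (y ∘ Sum.inl) s ≠ 0}.Finite := fun s =>
    po_finite (hx0 s) (hc s)
  have hC0f : {P | C0 P ≠ 0}.Finite := by
    obtain ⟨U, hU⟩ := exists_supp (k := k) (Finset.univ : Finset T) fun t => y (Sum.inr t)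
    refine (((U.finite_toSet.union (Set.finite_iUnion hp)).union hqf).union hef).subset
      fun P hP => ?_
    by_contra hcon
    simp only [Set.mem_union, Set.mem_iUnion, Set.mem_ofPred_eq, not_or, not_exists, not_not,
      Finset.mem_coe] at hcon
    obtain ⟨⟨⟨h1, h2⟩, h3⟩, h4⟩ := hcon
    apply hP
    rw [hC0, h3, h4, if_neg, mul_zero, add_zero, add_zero]
    rintro ⟨t, ht⟩
    apply ht
    rw [Finset.sum_eq_zero fun s _ => by rw [h2, mul_zero]]
    by_contra h
    exact h1 (hU t (Finset.mem_univ _) P h)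
  have hlwf := lw_finite (k := k) hI
  obtain ⟨C, hC⟩ : ∃ C : Place k K → ℤ, ∀ P, C P = C0 P + lw P M := ⟨_, fun _ => rfl⟩
  have hCf : {P | C P ≠ 0}.Finite := (hC0f.union hlwf).subset fun P hP => by
    by_contra hcon
    simp only [Set.mem_union, Set.mem_ofPred_eq, not_or, not_not] at hcon
    apply hP
    rw [hC, hcon.1, hcon.2, add_zero]
  have hCs : ∑ᶠ P, C P = ∑ᶠ P, C0 P + ∑ᶠ P : Place k K, lw P M := by
    simp only [hC]
    exact finsum_add_distrib hC0f hlwf
  refine ⟨ρ, u, tw sq b, hu, huW, ?_, ?_⟩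
  · have h1 := num2 (sq := sq) hbV
    omega
  simp only [← hC0]
  obtain ⟨Z, hZ⟩ : ∃ Z : K, Z = (M.submatrix id I).det * ∏ a, y (Sum.inr (θ a)) :=
    ⟨_, rfl⟩
  have hZ0 : Z ≠ 0 := by
    rw [hZ]
    exact mul_ne_zero hI (Finset.prod_ne_zero_iff.2 fun a _ => hz _)
  have hsum := sum_places2 (k := k) (x := y ∘ Sum.inl) hx hc
    (α := fun s => - (tw sq b s : ℤ)) (C := C)
    (lw := fun P => lo β P (y ∘ Sum.inl) u) hCf (lo_finite (x := y ∘ Sum.inl) hx0 hc hu)
    (Θ := (g' * g) / Z) (fun P => ?_)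
  · unfold sht wht
    rw [hCs] at hsum
    simp only [neg_mul, Finset.sum_neg_distrib] at hsum
    linarith
  · obtain ⟨δ, hδ⟩ := Pool.Agent.TH812.GV2.exists_locd P
    obtain ⟨τ, hτ0, hτ⟩ := exists_lo (β := β) (P := P) (x := y ∘ Sum.inl) hu
    have hdet : (mx β wT D E sq y I b (τb τ)).det ≠ 0 := by
      rw [hmx]
      exact mul_ne_zero hτ0 (mul_ne_zero hg' hg)
    have h1 := local_est hc hδ (hq0 P) (he0 P) hx0 hz (hdD P) (hdE P) (hlD P δ hδ) (hlE P δ hδ)
      hcl hI hbV (τb τ) hspan hdet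
    rw [hmx, hex, ← hZ, mul_div_assoc, P.ord_mul hτ0 (div_ne_zero (mul_ne_zero hg' hg) hZ0)] at h1
    have h2 : ((b.card + Fintype.card R : ℕ) : ℤ) * q P ≤ (ρ + Fintype.card T : ℕ) * q P :=
      mul_le_mul_of_nonneg_right (by rw [hbc]; exact_mod_cast (by omega)) (hq0 P)
    have h3 : ∑ s, ((col β (τb τ) s + tw sq b s : ℕ) : ℤ) * po β P (y ∘ Sum.inl) s =
        ∑ j, po β P (y ∘ Sum.inl) (β (τ j)) +
        ∑ s, (-(-(tw sq b s : ℤ))) * po β P (y ∘ Sum.inl) s := by
      rw [← hcol τ (fun s => po β P (y ∘ Sum.inl) s), ← Finset.sum_add_distrib]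
      exact Finset.sum_congr rfl fun s _ => by push_cast; ring
    rw [h3] at h1
    have h4 := hC P
    have h5 := hC0 P
    rw [← hτ]
    linarith

end glob

end Pool.Agent.K6.H80.VB
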