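import Pool.Agent.K6.H80.VB.Setup
import Pool.Agent.K6.H80.FV.Base

/-!
The height inequality for zero loci of generic sections of vector bundles with a linear
presentation, and generic members of linear systems.
-/

set_option autoImplicit false
set_option linter.unusedSectionVars false

open MvPolynomial FF Pool.Agent.W603.LV Pool.Agent.W603.PV Pool.Agent.W603.CZ
open Pool.Agent.TH812.GV2 (Loc GoodS exists_duals2 sum_under)
open Pool.Agent.TH812.GV (sum_loss)
open Pool.Agent.K6.H80.LV (Ti OK St sM pw up mn mn_pw pw_mem sM_up_mem po po_le exists_po Tan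
  der_adjoin px px_apply bht po_finite DimB Sys finite_st aeval_mn)
open Pool.Agent.K6.H80.FV (gx gx_inl pr tan_le tan_blk_le lo sht le_sht IsMulti ge_eval tangent Meet)

namespace Pool.Agent.K6.H80.VB

section lin

variable {L : Type} [Field L] {J Q : Type} [Fintype J]

/-- The kernel of a matrix of maximal rank. -/
theorem ker_span {e : ℕ} (A : Matrix (Fin e) J L) (hA : LinearIndependent L A.row)
    (G : Q → J → L) (hAG : ∀ q, A.mulVec (G q) = 0)
    (hr : Module.finrank L (Submodule.span L (Set.range G)) + e = Fintype.card J) (κ : J → L)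
    (hκ : A.mulVec κ = 0) : κ ∈ Submodule.span L (Set.range G) := by
  classical
  have h1 : Submodule.span L (Set.range G) ≤ LinearMap.ker A.mulVecLin := by
    rw [Submodule.span_le]
    rintro _ ⟨q, rfl⟩
    exact hAG q
  have h2 := A.mulVecLin.finrank_range_add_finrank_ker
  have h3 : Module.finrank L (LinearMap.range A.mulVecLin) = e := by
    have h4 := hA.rank_matrix
    rw [Fintype.card_fin] at h4
    exact h4
  rw [h3, Module.finrank_pi] at h2
  have h5 : Submodule.span L (Set.range G) = LinearMap.ker A.mulVecLin :=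
    Submodule.eq_of_le_of_finrank_le h1 (by omega)
  rw [h5]
  exact hκ

end lin

section wht

variable {k L : Type} [Field k] [Field L] [Algebra k L] {σ S T J : Type} [Fintype σ]
  [Fintype S] [Fintype T] [Fintype J] {β : σ → S} {c : S → σ} {dg : T → S → ℕ}

open scoped Classical in
/-- The determinants of the matrix of the classes. -/
theorem det_MM {e : ℕ} (A : Matrix (Fin e) J L) (x : σ → L) (I : Fin e → J)
    {ε : S → σ} (hε : ∀ s, β (ε s) = s) :
    ((MM β c dg A x).submatrix id (Sum.map I fun t : T =>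
      (⟨t, pw ε (dg t), pw_mem hε _⟩ : Mo β c dg))).det =
      (A.submatrix id I).det * ∏ t, mn x (pw ε (dg t)) := by
  have h1 : (MM β c dg A x).submatrix id (Sum.map I fun t : T =>
      (⟨t, pw ε (dg t), pw_mem hε _⟩ : Mo β c dg)) =
      Matrix.fromBlocks (A.submatrix id I) 0 0 (Matrix.diagonal fun t => mn x (pw ε (dg t))) := by
    ext i j
    rcases i with i | t <;> rcases j with j | t'
    · rfl
    · rfl
    · rfl
    · change (if t = t' then mn x (pw ε (dg t')) else 0) = _
      rw [Matrix.fromBlocks_apply₂₂, Matrix.diagonal_apply]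
      split_ifs with h
      · rw [h]
      · rfl
  rw [h1, Matrix.det_fromBlocks_zero₂₁, Matrix.det_diagonal]

variable [IsAlgClosed k] [CharZero k] [IsFF k L]

open scoped Classical in
theorem wht_MM {e : ℕ} {A : Matrix (Fin e) J L} (hA : LinearIndependent L A.row)
    (hc : ∀ s, β (c s) = s) {x : σ → L} (hx : ∀ s, x (c s) = 1) :
    (∃ I : Fin e ⊕ T → J ⊕ Mo β c dg, ((MM β c dg A x).submatrix id I).det ≠ 0) ∧
    wht k A + ∑ s, ((∑ t, dg t s : ℕ) : ℤ) * bht k β x s ≤ wht k (MM β c dg A x) := by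
  have hx0 : ∀ s, x (c s) ≠ 0 := fun s => by rw [hx]; exact one_ne_zero
  obtain ⟨I0, hI0⟩ := Pool.Agent.TH145.GC.exists_minor _ hA
  have hI0' : (A.submatrix id I0).det ≠ 0 := by
    have h : (A.submatrix id I0) = Matrix.of fun i j => A.row i (I0 j) := rfl
    rw [h]
    exact hI0
  have hmn : ∀ (ε : S → σ), (∀ s, x (ε s) ≠ 0) → (∏ t, mn x (pw ε (dg t))) ≠ 0 := fun ε h => by
    refine Finset.prod_ne_zero_iff.2 fun t _ => ?_
    rw [mn_pw]
    exact Finset.prod_ne_zero_iff.2 fun s _ => pow_ne_zero _ (h s)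
  have hI1 : ((MM β c dg A x).submatrix id (Sum.map I0 fun t : T =>
      (⟨t, pw c (dg t), pw_mem hc _⟩ : Mo β c dg))).det ≠ 0 := by
    rw [det_MM A x I0 hc]
    exact mul_ne_zero hI0' (hmn c hx0)
  refine ⟨⟨_, hI1⟩, ?_⟩
  have hle : ∀ P : Place k L, lw P (MM β c dg A x) ≤
      lw P A + ∑ s, ((∑ t, dg t s : ℕ) : ℤ) * po β P x s := by
    intro P
    obtain ⟨I, hI, hIl⟩ := exists_lw P hI0'
    have h : ∀ s, ∃ j, β j = s ∧ x j ≠ 0 ∧ P.ord (x j) = po β P x s := fun s => by
      have := exists_po (β := β) P (hx0 s)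
      rwa [hc] at this
    choose ε hε hεx hεo using h
    have h1 : ((MM β c dg A x).submatrix id (Sum.map I fun t : T =>
        (⟨t, pw ε (dg t), pw_mem hε _⟩ : Mo β c dg))).det ≠ 0 := by
      rw [det_MM A x I hε]
      exact mul_ne_zero hI (hmn ε hεx)
    refine (lw_le (P := P) h1).trans (le_of_eq ?_)
    rw [det_MM A x I hε, P.ord_mul hI (hmn ε hεx), hIl, Pool.Agent.TH145.GC.ord_prod P _ _
      fun t _ => by
        rw [mn_pw]
        exact Finset.prod_ne_zero_iff.2 fun s _ => pow_ne_zero _ (hεx s)]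
    congr 1
    have h2 : ∀ t, P.ord (mn x (pw ε (dg t))) = ∑ s, (dg t s : ℤ) * po β P x s := fun t => by
      rw [mn_pw, Pool.Agent.TH145.GC.ord_prod P _ _ fun s _ => pow_ne_zero _ (hεx s)]
      exact Finset.sum_congr rfl fun s _ => by rw [P.ord_pow, hεo]
    rw [Finset.sum_congr rfl fun t _ => h2 t, Finset.sum_comm]
    refine Finset.sum_congr rfl fun s _ => ?_
    rw [← Finset.sum_mul]
    push_cast
    rfl
  have hf1 := lw_finite (k := k) hI1
  have hf2 := lw_finite (k := k) hI0'
  have hp : ∀ s, {P : Place k L | po β P x s ≠ 0}.Finite := fun s => po_finite (hx0 s) (hc s)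
  obtain ⟨U, hU⟩ : ∃ U : Finset (Place k L),
    U = hf1.toFinset ∪ (hf2.toFinset ∪ Finset.univ.biUnion fun s => (hp s).toFinset) := ⟨_, rfl⟩
  have e1 : ∑ᶠ P : Place k L, lw P (MM β c dg A x) = ∑ P ∈ U, lw P (MM β c dg A x) := by
    rw [finsum_eq_sum_of_support_subset]
    intro P hP
    rw [hU]
    exact Finset.mem_union_left _ (hf1.mem_toFinset.2 hP)
  have e2 : ∑ᶠ P : Place k L, lw P A = ∑ P ∈ U, lw P A := by
    rw [finsum_eq_sum_of_support_subset]
    intro P hP
    rw [hU]
    exact Finset.mem_union_right _ (Finset.mem_union_left _ (hf2.mem_toFinset.2 hP))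
  have e3 : ∀ s, bht k β x s = - ∑ P ∈ U, po β P x s := by
    intro s
    unfold bht
    rw [finsum_eq_sum_of_support_subset (s := U)]
    intro P hP
    rw [hU]
    exact Finset.mem_union_right _ (Finset.mem_union_right _ (Finset.mem_biUnion.2
      ⟨s, Finset.mem_univ _, (hp s).mem_toFinset.2 hP⟩))
  have h4 := Finset.sum_le_sum (s := U) fun P _ => hle P
  rw [Finset.sum_add_distrib, Finset.sum_comm] at h4
  unfold wht
  rw [e1, e2]
  have h5 : ∑ s, ((∑ t, dg t s : ℕ) : ℤ) * bht k β x s =
      - ∑ s, ∑ P ∈ U, ((∑ t, dg t s : ℕ) : ℤ) * po β P x s := by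
    rw [← Finset.sum_neg_distrib]
    refine Finset.sum_congr rfl fun s _ => ?_
    rw [e3, ← Finset.mul_sum]
    ring
  rw [h5]
  linarith

end wht

end Pool.Agent.K6.H80.VB
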