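import Pool.Agent.K6.H80.VB.Main

/-!
The height inequality for zero loci of generic sections of vector bundles with a linear
presentation, and generic members of linear systems.
-/

set_option autoImplicit false
set_option linter.unusedSectionVars false

open MvPolynomial FF Pool.Agent.W603.LV Pool.Agent.W603.PV Pool.Agent.W603.CZ
open Pool.Agent.TH812.GV2 (Loc GoodS exists_duals2 sum_under)
open Pool.Agent.TH812.GV (sum_loss)
open Pool.Agent.K6.H80.LV (Ti OK St sM pw up mn mn_pw pw_mem sM_up_mem po po_le exists_po Tan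
  der_adjoin px px_apply bht po_finite DimB Sys finite_st aeval_mn)
open Pool.Agent.K6.H80.FV (gx gx_inl pr tan_le tan_blk_le lo sht le_sht IsMulti ge_eval tangent Meet)

namespace Pool.Agent.K6.H80.VB

open scoped Classical in
/-- The values of the relations. -/
noncomputable def Gv {R0 L σ S J Q : Type} [Field R0] [Field L] [Algebra R0 L] [Fintype σ]
    (β : σ → S) (s0 : Q → S) (g : Q → J → σ → R0) (x : σ → L) (q : Q) (j : J) : L :=
  ∑ l, if β l = s0 q then algebraMap R0 L (g q j l) * x l else 0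

theorem main {k0 k R0 F : Type} [Field k0] [Field k] [Field R0] [Field F] [IsAlgClosed k]
    [CharZero k] [Algebra k0 k] [Algebra k F] [Algebra k0 F] [IsScalarTower k0 k F]
    [Algebra k0 R0] [Algebra R0 F] [IsScalarTower k0 R0 F] [IsFF k F]
    (hfg : ∃ S : Finset R0, IntermediateField.adjoin k0 (S : Set R0) = ⊤)
    {σ S T J Q : Type} [Fintype σ] [Fintype S] [Fintype T] [Fintype J] [Fintype Q]
    {β : σ → S} {c : S → σ} (hc : ∀ s, β (c s) = s) {m : ℕ} {μ : S → ℕ}
    (V : Set (MvPolynomial σ R0)) (hVm : ∀ f ∈ V, ∃ e, IsMulti β e f) (hV : DimB R0 β V m μ)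
    (s0 : Q → S) (g : Q → J → σ → R0) (e : ℕ) (z : J → F)
    (hrank : ∀ (Ω : Type) [Field Ω] [Algebra R0 Ω] (x : σ → Ω), (∀ s, ∃ l, β l = s ∧ x l = 1) →
      (∀ f ∈ V, aeval x f = 0) →
      Module.finrank Ω (Submodule.span Ω (Set.range (Gv β s0 g x))) + e = Fintype.card J)
    (dg : T → S → ℕ)
    (G0 : T → MvPolynomial σ R0) (hG0 : ∀ t, IsMulti β (dg t) (G0 t))
    {X : T → Type} [∀ t, Fintype (X t)] (P : ∀ t, X t → MvPolynomial σ R0)
    (hPm : ∀ t j, IsMulti β (dg t) (P t j))
    (hP : ∀ t, ∀ I ∈ St β c (dg t), Sys β V (P t) I)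
    (cf : ∀ t, X t → F)
    (hind : AlgebraicIndependent R0 (Sum.elim z fun p : (Σ t, X t) => cf p.1 p.2))
    {Fm : T → MvPolynomial σ F}
    (hF : ∀ t, Fm t = map (algebraMap R0 F) (G0 t) +
      ∑ j, C (cf t j) * map (algebraMap R0 F) (P t j)) :
    ∃ C : ℕ, ∀ (L : Type) [Field L] [Algebra k L] [Algebra F L] [Algebra R0 L]
      [IsScalarTower k F L] [IsScalarTower R0 F L] [FiniteDimensional F L] (x : σ → L),
      (∀ s, x (c s) = 1) → (∀ f ∈ V, aeval x f = 0) → (∀ t, aeval x (Fm t) ≠ 0) →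
      (fun j => algebraMap F L (z j)) ∈ Submodule.span L (Set.range (Gv β s0 g x)) →
      ∀ A : Matrix (Fin e) J L, LinearIndependent L A.row →
      (∀ q, A.mulVec (Gv β s0 g x q) = 0) →
      ∃ (r : ℕ) (u : Fin (r + Fintype.card S) → σ → L) (w : S → ℕ), r ≤ m ∧
        LinearIndependent L u ∧ (∀ s, px β x s ∈ Submodule.span L (Set.range u)) ∧
        (∀ i, ∀ f ∈ V, ∑ l, aeval x (pderiv l f) * u i l = 0) ∧
        ∑ s, w s + e ≤ r ∧
        wht k A + ∑ s, ((∑ t, dg t s : ℕ) - w s : ℤ) * bht k β x s + sht k β x u ≤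
          (Meet k β dg Fm id x).ncard + canDeg k L + C * Module.finrank F L ∧
        wht k A + ∑ s, ((∑ t, dg t s : ℕ) - w s - μ s - 1 : ℤ) * bht k β x s ≤
          (Meet k β dg Fm id x).ncard + canDeg k L + C * Module.finrank F L := by
  classical
  have hFz : CharZero F := charZero_of_injective_algebraMap (algebraMap k F).injective
  obtain ⟨D0, hD0g, hD0k, hD0⟩ := exists_duals2 (k0 := k0) (k := k) (F0 := R0) (F := F) hfg
    (Sum.elim z fun p : (Σ t, X t) => cf p.1 p.2) hind
  choose! ec hec using hP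
  have hFmm : ∀ t, IsMulti β (dg t) (Fm t) := fun a => by
    refine IsMulti.comb (P := fun j : Option (X a) => j.elim (G0 a) (P a))
      (c := fun j => j.elim 1 (cf a)) (fun j => ?_) ?_
    · cases j with
      | none => exact hG0 _
      | some j => exact hPm _ j
    · rw [hF, Fintype.sum_option]
      simp only [Option.elim_none, Option.elim_some, map_one, one_mul]
  -- the derivations of `F`
  obtain ⟨FE, hFE⟩ : ∃ FE : J → Derivation ℤ F F, ∀ j, FE j = D0 (Sum.inl j) := ⟨_, fun _ => rfl⟩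
  obtain ⟨FT, hFT⟩ : ∃ FT : T → (σ →₀ ℕ) → Derivation ℤ F F, ∀ a I,
      FT a I = ∑ j : X a, algebraMap R0 F (ec a I j) • D0 (Sum.inr ⟨a, j⟩) := ⟨_, fun _ _ => rfl⟩
  obtain ⟨FQ, hFQ⟩ : ∃ FQ : Q → σ → Derivation ℤ F F, ∀ q l,
      FQ q l = ∑ j : J, algebraMap R0 F (g q j l) • D0 (Sum.inl j) := ⟨_, fun _ _ => rfl⟩
  have hFTa : ∀ a I f, FT a I f =
      ∑ j : X a, algebraMap R0 F (ec a I j) * D0 (Sum.inr ⟨a, j⟩) f := by
    intro a I f
    rw [hFT, ← Derivation.coeFnAddMonoidHom_apply, map_sum, Finset.sum_apply]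
    rfl
  have hFQa : ∀ q l f, FQ q l f = ∑ j : J, algebraMap R0 F (g q j l) * D0 (Sum.inl j) f := by
    intro a I f
    rw [hFQ, ← Derivation.coeFnAddMonoidHom_apply, map_sum, Finset.sum_apply]
    rfl
  have hgE : ∀ j, GoodS k (FE j) := fun j => by rw [hFE]; exact hD0g _
  have hgT : ∀ a I, GoodS k (FT a I) := by
    intro a I
    rw [hFT]
    exact GoodS.sum _ _ fun j _ => (hD0g _).smul _
  have hgQ : ∀ q l, GoodS k (FQ q l) := by
    intro a I
    rw [hFQ]
    exact GoodS.sum _ _ fun j _ => (hD0g _).smul _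
  have hkE : ∀ j (r : R0), FE j (algebraMap R0 F r) = 0 := fun j r => by rw [hFE, hD0k]
  have hkT : ∀ a I (r : R0), FT a I (algebraMap R0 F r) = 0 := by
    intro a I r
    rw [hFTa]
    exact Finset.sum_eq_zero fun j _ => by rw [hD0k, mul_zero]
  have hEz : ∀ i j, FE i (z j) = if i = j then 1 else 0 := by
    intro i j
    rw [hFE]
    by_cases h : i = j
    · rw [if_pos h]
      exact (hD0 (Sum.inl i) (Sum.inl j)).1 (by rw [h])
    · rw [if_neg h]
      exact (hD0 (Sum.inl i) (Sum.inl j)).2 fun h' => h (Sum.inl_injective h')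
  have hEc : ∀ i t j, FE i (cf t j) = 0 := by
    intro i t j
    rw [hFE]
    exact (hD0 (Sum.inl i) (Sum.inr ⟨t, j⟩)).2 (by simp)
  have hTz : ∀ a I j, FT a I (z j) = 0 := by
    intro a I j
    rw [hFTa]
    refine Finset.sum_eq_zero fun i _ => ?_
    have h1 := (hD0 (Sum.inr ⟨a, i⟩) (Sum.inl j)).2 (by simp)
    rw [Sum.elim_inl] at h1
    rw [h1, mul_zero]
  have hTc : ∀ a I b j, FT a I (cf b j) = if h : a = b then algebraMap R0 F (ec b I j) else 0 := by
    intro a I b j
    rw [hFTa]
    by_cases hab : a = b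
    · subst hab
      rw [dif_pos rfl, Finset.sum_eq_single j]
      · have h1 := (hD0 (Sum.inr ⟨a, j⟩) (Sum.inr ⟨a, j⟩)).1 rfl
        rw [Sum.elim_inr] at h1
        rw [h1, mul_one]
      · intro j' _ hj'
        have h1 := (hD0 (Sum.inr ⟨a, j'⟩) (Sum.inr ⟨a, j⟩)).2 (by
          intro h
          exact hj' (eq_of_heq (Sigma.mk.inj_iff.1 (Sum.inr_injective h)).2))
        rw [Sum.elim_inr] at h1
        rw [h1, mul_zero]
      · intro h; exact absurd (Finset.mem_univ _) h
    · rw [dif_neg hab]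
      refine Finset.sum_eq_zero fun j' _ => ?_
      have h1 := (hD0 (Sum.inr ⟨a, j'⟩) (Sum.inr ⟨b, j⟩)).2 (by
        intro h
        exact hab (congrArg Sigma.fst (Sum.inr_injective h)))
      rw [Sum.elim_inr] at h1
      rw [h1, mul_zero]
  -- the loss
  choose qE hqE0 hqEf hqE using hgE
  choose qT hqT0 hqTf hqT using hgT
  choose qQ hqQ0 hqQf hqQ using hgQ
  have hfinI : ∀ a, (St β c (dg a)).Finite := fun a => finite_st β c (dg a)
  obtain ⟨Qs, hQs⟩ : ∃ Qs : Place k F → ℤ, ∀ v, Qs v = ∑ j, qE j v +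
      (∑ a, ∑ I ∈ (hfinI a).toFinset, qT a I v + ∑ q, ∑ l, qQ q l v) := ⟨_, fun _ => rfl⟩
  have hE0 : ∀ v, 0 ≤ ∑ j, qE j v := fun v => Finset.sum_nonneg fun j _ => hqE0 j v
  have hT0 : ∀ v, 0 ≤ ∑ a, ∑ I ∈ (hfinI a).toFinset, qT a I v := fun v =>
    Finset.sum_nonneg fun a _ => Finset.sum_nonneg fun I _ => hqT0 a I v
  have hG00 : ∀ v, 0 ≤ ∑ q, ∑ l, qQ q l v := fun v =>
    Finset.sum_nonneg fun a _ => Finset.sum_nonneg fun I _ => hqQ0 a I v
  have hQ0 : ∀ v, 0 ≤ Qs v := fun v => by
    rw [hQs]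
    have h1 := hE0 v
    have h2 := hT0 v
    have h3 := hG00 v
    omega
  have hQf : {v | Qs v ≠ 0}.Finite := by
    have h1 : (⋃ a : T, ⋃ I ∈ (hfinI a).toFinset, {v | qT a I v ≠ 0}).Finite :=
      Set.finite_iUnion fun a => (hfinI a).toFinset.finite_toSet.biUnion fun I _ => hqTf a I
    have h2 : (⋃ j : J, {v | qE j v ≠ 0}).Finite := Set.finite_iUnion fun j => hqEf j
    have h3 : (⋃ q : Q, ⋃ l : σ, {v | qQ q l v ≠ 0}).Finite :=
      Set.finite_iUnion fun q => Set.finite_iUnion fun l => hqQf q l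
    refine ((h1.union h2).union h3).subset fun v hv => ?_
    by_contra hcon
    simp only [Set.mem_union, Set.mem_iUnion, not_or, not_exists, Set.mem_ofPred_eq,
      not_not] at hcon
    obtain ⟨⟨hc1, hc2⟩, hc3⟩ := hcon
    apply hv
    rw [hQs, Finset.sum_eq_zero fun j _ => hc2 j, Finset.sum_eq_zero fun a _ =>
      Finset.sum_eq_zero fun I hI => hc1 a I hI, Finset.sum_eq_zero fun q _ =>
      Finset.sum_eq_zero fun l _ => hc3 q l, add_zero, add_zero]
  have hleE : ∀ j v, qE j v ≤ Qs v := by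
    intro j v
    rw [hQs]
    have h1 := Finset.single_le_sum (f := fun j => qE j v) (fun j _ => hqE0 j v)
      (Finset.mem_univ j)
    have h2 := hT0 v
    have h3 := hG00 v
    omega
  have hleT : ∀ a, ∀ I ∈ St β c (dg a), ∀ v, qT a I v ≤ Qs v := by
    intro a I hI v
    rw [hQs]
    have h1 := Finset.single_le_sum (f := fun a => ∑ I ∈ (hfinI a).toFinset, qT a I v)
      (fun a _ => Finset.sum_nonneg fun I _ => hqT0 a I v) (Finset.mem_univ a)
    have h2 := Finset.single_le_sum (f := fun I => qT a I v) (fun I _ => hqT0 a I v)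
      (show I ∈ (hfinI a).toFinset by rw [Set.Finite.mem_toFinset]; exact hI)
    have h3 := hE0 v
    have h4 := hG00 v
    omega
  have hleQ : ∀ q l v, qQ q l v ≤ Qs v := by
    intro q l v
    rw [hQs]
    have h1 := Finset.single_le_sum (f := fun q => ∑ l, qQ q l v)
      (fun a _ => Finset.sum_nonneg fun I _ => hqQ0 a I v) (Finset.mem_univ q)
    have h2 := Finset.single_le_sum (f := fun l => qQ q l v) (fun l _ => hqQ0 q l v)
      (Finset.mem_univ l)
    have h3 := hE0 v
    have h4 := hT0 v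
    omega
  obtain ⟨C1, hC1⟩ := sum_loss (k := k) hQ0 hQf
  obtain ⟨C3, hC3⟩ := sum_under (k := k) hQ0 hQf
  -- the places at which the coefficients are not integral
  choose S0 hS0 using fun t => exists_supp (k := k) (Fm t).support fun u => (Fm t).coeff u
  obtain ⟨S1, hS1⟩ : ∃ S1 : Finset (Place k F), S1 = Finset.univ.biUnion S0 := ⟨_, rfl⟩
  have hS1c : ∀ t u v, v ∉ S1 → Ge v 0 ((Fm t).coeff u) := by
    intro t u v hv
    by_cases hu : u ∈ (Fm t).support
    · right
      have h1 : v.ord ((Fm t).coeff u) = 0 := by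
        by_contra h
        apply hv
        rw [hS1]
        exact Finset.mem_biUnion.2 ⟨t, Finset.mem_univ _, hS0 t u hu v h⟩
      rw [h1]
    · exact Or.inl (notMem_support_iff.1 hu)
  obtain ⟨C2, hC2⟩ : ∃ C2 : ℕ, (C2 : ℤ) = ∑ v ∈ S1, hgt k (unif v) :=
    ⟨(∑ v ∈ S1, hgt k (unif v)).toNat, Int.toNat_of_nonneg
      (Finset.sum_nonneg fun _ _ => hgt_nonneg _)⟩
  refine ⟨C2 + C1 + (m + Fintype.card S + Fintype.card T) * C3, ?_⟩
  intro L _ _ _ _ _ _ _ x hx hxV hxT hxz A hA hAG
  have hL : IsFF k L := isFF_of_finite (F := F)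
  have hLz : CharZero L := charZero_of_injective_algebraMap (algebraMap k L).injective
  choose DE hDE hDEl using fun j => hqE j L
  choose DT hDT hDTl using fun a I => hqT a I L
  choose DQ hDQ hDQl using fun q l => hqQ q l L
  obtain ⟨hqfin, hqsum⟩ := hC1 L
  obtain ⟨hufin, husum⟩ := hC3 L
  obtain ⟨el, hel⟩ : ∃ el : Place k L → ℤ, ∀ P, el P =
    ((ram F P : ℤ) - 1) + ram F P * Qs (under F P) := ⟨_, fun _ => rfl⟩
  obtain ⟨ql, hql⟩ : ∃ ql : Place k L → ℤ, ∀ P, ql P = ram F P * Qs (under F P) :=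
    ⟨_, fun _ => rfl⟩
  have hql0 : ∀ P, 0 ≤ ql P := fun P => by
    rw [hql]
    exact mul_nonneg (by positivity) (hQ0 _)
  have hel0 : ∀ P, 0 ≤ el P := fun P => by
    rw [hel]
    have h1 := (ram_spec (F := F) P).1
    have h2 := hql0 P
    rw [hql] at h2
    omega
  have hdir : ∀ (P : Place k L) (δ : Derivation ℤ L L) (q : ℤ), q ≤ Qs (under F P) →
      Ge P (-(((ram F P : ℤ) - 1) + ram F P * q)) (δ (unif P)) → Ge P (-el P) (δ (unif P)) := by
    intro P δ q hq hδ
    rw [hel]
    refine hδ.mono ?_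
    have h2 : (0 : ℤ) ≤ ram F P := by positivity
    nlinarith
  have hloss : ∀ (P : Place k L) (q g : ℤ) (f : L), q ≤ Qs (under F P) →
      Ge P (g - ram F P * q) f → Ge P (g - ql P) f := by
    intro P q g f hq hf
    rw [hql]
    refine hf.mono ?_
    have h2 : (0 : ℤ) ≤ ram F P := by positivity
    nlinarith
  have hkE' : ∀ j (r : R0), DE j (algebraMap R0 L r) = 0 := fun j r => by
    rw [IsScalarTower.algebraMap_apply R0 F L, hDE, hkE, map_zero]
  have hkT' : ∀ a I (r : R0), DT a I (algebraMap R0 L r) = 0 := fun a I r => by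
    rw [IsScalarTower.algebraMap_apply R0 F L, hDT, hkT, map_zero]
  -- the derivations in the tangent vector fields
  have hDQE : ∀ q l, DQ q l = ∑ j, algebraMap R0 L (g q j l) • DE j := by
    intro q l
    have hs : ∀ f, (∑ j, algebraMap R0 L (g q j l) • DE j : Derivation ℤ L L) f =
        ∑ j, algebraMap R0 L (g q j l) * DE j f := fun f => by
      rw [← Derivation.coeFnAddMonoidHom_apply, map_sum, Finset.sum_apply]
      rfl
    have h1 : ∀ f : L, (DQ q l - ∑ j, algebraMap R0 L (g q j l) • DE j) f = 0 := by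
      intro f
      refine der_adjoin (k0 := F) _ (fun r => ?_) (T := ∅) (by simp) ?_
      · rw [Derivation.sub_apply, hs, hDQ, hFQa, map_sum, sub_eq_zero]
        refine Finset.sum_congr rfl fun j _ => ?_
        rw [map_mul, hDE, hFE, ← IsScalarTower.algebraMap_apply]
      · exact (Algebra.IsAlgebraic.isAlgebraic (R := F) f).extendScalars
          (algebraMap F (IntermediateField.adjoin F (∅ : Set L))).injective
    refine Derivation.ext fun f => ?_
    have h2 := h1 f
    rwa [Derivation.sub_apply, sub_eq_zero] at h2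
  -- the point
  obtain ⟨y, hy⟩ : ∃ y : σ ⊕ T → L, y = Sum.elim x fun t => aeval x (Fm t) := ⟨_, rfl⟩
  have hyx : y ∘ Sum.inl = x := by rw [hy]; rfl
  have hyl : ∀ l, y (Sum.inl l) = x l := fun l => by rw [hy]; rfl
  have hyr : ∀ t, y (Sum.inr t) = aeval x (Fm t) := fun t => by rw [hy]; rfl
  have hGv : ∀ q j, (∑ l, if β l = s0 q then algebraMap R0 L (g q j l) * y (Sum.inl l) else 0) =
      Gv β s0 g x q j := by
    intro q j
    rw [Gv]
    exact Finset.sum_congr rfl fun l _ => by rw [hyl]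
  have hGvf : (fun q j => ∑ l, if β l = s0 q then algebraMap R0 L (g q j l) * y (Sum.inl l)
      else 0) = Gv β s0 g x := by
    funext q j
    exact hGv q j
  have hdP : ∀ (δ : Derivation ℤ L L), (∀ r : R0, δ (algebraMap R0 L r) = 0) →
      (∀ l, δ (x l) = 0) → ∀ f : MvPolynomial σ R0, δ (aeval x f) = 0 := by
    intro δ hδ hδx f
    refine der_adjoin (k0 := R0) δ hδ (T := Set.range x) (by
      rintro _ ⟨l, rfl⟩
      exact hδx l) ?_
    have h3 : aeval x f ∈ IntermediateField.adjoin R0 (Set.range x) := by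
      have h4 : aeval x f ∈ Algebra.adjoin R0 (Set.range x) := by
        rw [Algebra.adjoin_range_eq_range_aeval]
        exact ⟨f, rfl⟩
      exact IntermediateField.algebra_adjoin_le_adjoin _ _ h4
    exact isAlgebraic_algebraMap (⟨_, h3⟩ : IntermediateField.adjoin R0 (Set.range x))
  have hFmx : ∀ t, aeval x (Fm t) = aeval x (G0 t) +
      ∑ j, algebraMap F L (cf t j) * aeval x (P t j) := by
    intro t
    rw [hF, map_add, map_sum, aeval_map_algebraMap]
    congr 1
    refine Finset.sum_congr rfl fun j _ => ?_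
    rw [map_mul, aeval_C, aeval_map_algebraMap]
  obtain ⟨φ, hφ⟩ := exists_cl (k0 := R0) (β := β) (wT := dg) (c := c) (dg := dg) (DE := DE)
    (Eo := DQ) (DT := DT) (s0 := s0) hc (y := y) (fun s => by rw [hyl]; exact hx s)
    (g := fun q j l => algebraMap R0 L (g q j l)) (fun q l _ => hDQE q l) hkE' hkT' A
    (by
      rw [hGvf]
      exact ker_span A hA _ hAG (hrank L x (fun s => ⟨c s, hc s, hx s⟩) hxV))
    (fun q => by
      have h1 : (fun j => ∑ l, if β l = s0 q then algebraMap R0 L (g q j l) * y (Sum.inl l)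
          else 0) = Gv β s0 g x q := funext fun j => hGv q j
      rw [h1]
      exact hAG q)
    (fun j => algebraMap F L (z j)) (fun i j => by
      rw [hDE, hEz]
      split_ifs
      · rw [map_one]
      · rw [map_zero]) (fun t I j => by rw [hDT, hTz, map_zero])
    (fun δ hδ hδy => by
      obtain ⟨ν, hν⟩ := (Submodule.mem_span_range_iff_exists_fun L).1 hxz
      have h1 : (fun j => δ (algebraMap F L (z j))) = ∑ q, δ (ν q) • Gv β s0 g x q := by
        funext j
        have h2 := congrFun hν j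
        rw [← h2, Finset.sum_apply, Finset.sum_apply, map_sum]
        refine Finset.sum_congr rfl fun q _ => ?_
        have h3 : δ (Gv β s0 g x q j) = 0 := by
          rw [Gv, map_sum]
          refine Finset.sum_eq_zero fun l _ => ?_
          split_ifs
          · rw [δ.leibniz, hδ]
            have h4 := hδy (Sum.inl l)
            rw [hyl] at h4
            rw [h4, smul_zero, smul_zero, add_zero]
          · rw [map_zero]
        rw [Pi.smul_apply, Pi.smul_apply, smul_eq_mul, smul_eq_mul, δ.leibniz, h3, smul_zero,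
          zero_add, smul_eq_mul, mul_comm]
      rw [h1, Matrix.mulVec_sum]
      refine Finset.sum_eq_zero fun q _ => ?_
      rw [Matrix.mulVec_smul, hAG, smul_zero])
    (X := X) (fun t j => aeval x (P t j)) (fun t j => algebraMap F L (cf t j))
    (fun t b I hI => by
      rw [hyx]
      have h1 : ∀ j, DT b I (algebraMap F L (cf t j)) =
          if h : b = t then algebraMap R0 L (ec t I j) else 0 := fun j => by
        rw [hDT, hTc]
        split_ifs
        · rw [← IsScalarTower.algebraMap_apply]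
        · rw [map_zero]
      simp only [h1]
      by_cases hab : b = t
      · subst hab
        rw [if_pos rfl, ← aeval_mn (k' := R0), hec b I hI L x (fun s => ⟨c s, hc s, hx s⟩) hxV]
        exact Finset.sum_congr rfl fun j _ => by rw [dif_pos rfl, mul_comm]
      · rw [if_neg (Ne.symm hab)]
        exact Finset.sum_eq_zero fun j _ => by rw [dif_neg hab, mul_zero])
    (fun t i j => by rw [hDE, hEc, map_zero])
    (fun δ hδ hδy t => by
      have hδx : ∀ l, δ (x l) = 0 := fun l => by
        have := hδy (Sum.inl l)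
        rwa [hyl] at this
      have h1 := hδy (Sum.inr t)
      rw [hyr, hFmx, map_add, hdP δ hδ hδx, zero_add, map_sum] at h1
      rw [← h1]
      refine Finset.sum_congr rfl fun j _ => ?_
      rw [δ.leibniz, hdP δ hδ hδx, smul_zero, zero_add, smul_eq_mul])
  obtain ⟨⟨I0, hI0⟩, hwht⟩ := wht_MM (k := k) (β := β) (dg := dg) hA hc hx
  rw [hyx] at hφ
  obtain ⟨htr, htrb⟩ := hV L x (fun s => ⟨c s, hc s, hx s⟩) hxV
  have hkQ' : ∀ q l (r : R0), EE β c dg DQ DT q l (algebraMap R0 L r) = 0 := by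
    rintro (q | t) l r
    · change DQ q l (algebraMap R0 L r) = 0
      rw [hDQE, ← Derivation.coeFnAddMonoidHom_apply, map_sum, Finset.sum_apply]
      refine Finset.sum_eq_zero fun j _ => ?_
      change algebraMap R0 L (g q j l) * DE j (algebraMap R0 L r) = 0
      rw [hkE', mul_zero]
    · change ET β c dg DT t l (algebraMap R0 L r) = 0
      rw [ET]
      split_ifs <;> simp [hkT']
  have hkD' : ∀ i (r : R0), DD β c dg DE DT i (algebraMap R0 L r) = 0 := by
    rintro (j | p) r
    · exact hkE' j r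
    · exact hkT' _ _ r
  have htan : (Full β dg (DD β c dg DE DT) (EE β c dg DQ DT) (SQ s0) y).map (pr L σ T) ≤
      Tan R0 β x := by
    have h1 := full_le_tan (k0 := R0) (β := β) (wT := dg) (sq := SQ s0) hkD' hkQ' y
    rwa [hyx] at h1
  have hrk : Module.finrank L ((Full β dg (DD β c dg DE DT) (EE β c dg DQ DT) (SQ s0) y).map
      (pr L σ T)) ≤ m + Fintype.card S :=
    (Submodule.finrank_mono htan).trans (tan_le (k0 := R0) hc hx htr)
  have hrkb : ∀ s, Module.finrank L (((Full β dg (DD β c dg DE DT) (EE β c dg DQ DT)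
      (SQ s0) y).map (pr L σ T)).map (Pool.Agent.K6.H80.LV.bp L β s)) ≤ μ s + 1 := fun s =>
    (Submodule.finrank_mono (Submodule.map_mono htan)).trans
      (tan_blk_le (k0 := R0) hc hx s (htrb s))
  have hef : {P | el P ≠ 0}.Finite := by simp only [hel]; exact hqfin
  have hqf' : {P | ql P ≠ 0}.Finite := by simp only [hql]; exact hufin
  have hTI : ∀ t : Ti σ S T, OK β dg t → sM c (dg t.1) t.2.2.1 t.2.2.2 ∈ St β c (dg t.1) ∧
      sM c (dg t.1) t.2.2.1 (up t.2.2.2 t.2.1) ∈ St β c (dg t.1) := fun t ht =>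
    ⟨⟨_, _, ht.1, ht.2.1, rfl⟩, sM_up_mem ht.1 ht.2.1 ht.2.2⟩
  obtain ⟨ρ, u, w, hu, huW, hw, key⟩ := ineq2 (k := k) hc (y := y)
    (fun s => by rw [hyl]; exact hx s) (fun t => by rw [hyr]; exact hxT t) hφ hI0
    hql0 hel0 hqf' hef
    (fun P i => by
      rcases i with j | p
      · exact hdir P (DE j) _ (hleE j _) (hDEl j P).1
      · exact hdir P (DT p.1 p.2) _ (hleT p.1 _ p.2.2 _) (hDTl p.1 p.2 P).1)
    (fun P o l => by
      rcases o with q | t
      · exact hdir P (DQ q l) _ (hleQ q l _) (hDQl q l P).1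
      · change Ge P (-el P) (ET β c dg DT t l (unif P))
        rw [ET]
        split_ifs with h1 h2 h3 h3
        · exact Ge.sub (hdir P _ _ (hleT _ _ (hTI t h1).2 _) (hDTl _ _ P).1)
            (hdir P _ _ (hleT _ _ (hTI t h1).1 _) (hDTl _ _ P).1)
        · exact Ge.sub (hdir P _ _ (hleT _ _ (hTI t h1).2 _) (hDTl _ _ P).1) Ge.zero
        · exact Ge.sub Ge.zero (hdir P _ _ (hleT _ _ (hTI t h1).1 _) (hDTl _ _ P).1)
        · exact Ge.sub Ge.zero Ge.zero
        · exact Ge.zero)
    (fun P δ hδ i g f hf => by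
      rcases i with j | p
      · exact hloss P _ _ _ (hleE j _) ((hDEl j P).2 δ hδ g f hf)
      · exact hloss P _ _ _ (hleT p.1 _ p.2.2 _) ((hDTl p.1 p.2 P).2 δ hδ g f hf))
    (fun P δ hδ o l g f hf => by
      rcases o with q | t
      · exact hloss P _ _ _ (hleQ q l _) ((hDQl q l P).2 δ hδ g f hf)
      · change Ge P (g - ql P) (ET β c dg DT t l f - ET β c dg DT t l (unif P) * δ f)
        have hA1 : ∀ h1 : OK β dg t, Ge P (g - ql P)
            (DT t.1 (sM c (dg t.1) t.2.2.1 (up t.2.2.2 t.2.1)) f -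
              DT t.1 (sM c (dg t.1) t.2.2.1 (up t.2.2.2 t.2.1)) (unif P) * δ f) := fun h1 =>
          hloss P _ _ _ (hleT _ _ (hTI t h1).2 _) ((hDTl _ _ P).2 δ hδ g f hf)
        have hA2 : ∀ h1 : OK β dg t, Ge P (g - ql P)
            (DT t.1 (sM c (dg t.1) t.2.2.1 t.2.2.2) f -
              DT t.1 (sM c (dg t.1) t.2.2.1 t.2.2.2) (unif P) * δ f) := fun h1 =>
          hloss P _ _ _ (hleT _ _ (hTI t h1).1 _) ((hDTl _ _ P).2 δ hδ g f hf)
        rw [ET]
        split_ifs with h1 h2 h3 h3
        · convert Ge.sub (hA1 h1) (hA2 h1) using 1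
          simp only [Derivation.sub_apply]
          ring
        · simp only [sub_zero]
          exact hA1 h1
        · convert Ge.sub Ge.zero (hA2 h1) using 1
          simp only [Derivation.sub_apply, Derivation.zero_apply]
          ring
        · convert Ge.zero (P := P) (N := g - ql P) using 1
          simp
        · convert Ge.zero (P := P) (N := g - ql P) using 1
          simp)
  rw [hyx] at key
  simp only [hyr] at key
  have hpx : ∀ s, px β x s ∈ Submodule.span L (Set.range u) := by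
    intro s
    rw [huW]
    refine ⟨gx β dg y s, wv_mem_full y (Sum.inl s), ?_⟩
    funext l
    change gx β dg y s (Sum.inl l) = _
    rw [gx_inl, px_apply, hyl]
  have hρ : ρ ≤ m + Fintype.card S := by
    rw [← huW, finrank_span_eq_card hu, Fintype.card_fin] at hrk
    exact hrk
  have hSρ : Fintype.card S ≤ ρ := by
    have h1 : LinearIndependent L fun s => px β x s := by
      rw [Fintype.linearIndependent_iff]
      intro g hg s
      have h2 := congrFun hg (c s)
      rw [Finset.sum_apply] at h2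
      simp only [Pi.smul_apply, smul_eq_mul, Pi.zero_apply] at h2
      rw [Pool.Agent.K6.H80.LV.sum_px, hc, hx, mul_one] at h2
      exact h2
    have h2 := finrank_span_eq_card h1
    have h3 : Submodule.span L (Set.range fun s => px β x s) ≤ Submodule.span L (Set.range u) := by
      rw [Submodule.span_le]
      rintro _ ⟨s, rfl⟩
      exact hpx s
    have h4 := Submodule.finrank_mono h3
    rw [h2, finrank_span_eq_card hu, Fintype.card_fin] at h4
    exact h4
  obtain ⟨r, rfl⟩ : ∃ r, ρ = r + Fintype.card S := ⟨ρ - Fintype.card S, by omega⟩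
  have hutan : ∀ i, ∀ f ∈ V, ∑ l, aeval x (pderiv l f) * u i l = 0 := by
    intro i f hf
    obtain ⟨e, he⟩ := hVm f hf
    refine tangent (k0 := R0) (β := β) (htan ?_) he (hxV f hf)
    rw [← huW]
    exact Submodule.subset_span ⟨i, rfl⟩
  have hsht := le_sht (k := k) hx hc hu (μ := μ) fun s => by rw [huW]; exact hrkb s
  have hkey2 : wht k A + ∑ s, ((∑ t, dg t s : ℕ) - w s : ℤ) * bht k β x s + sht k β x u ≤
      ∑ᶠ P : Place k L, ((if ∃ t, P.ord (aeval x (Fm t)) ≠
        ∑ s, (dg t s : ℤ) * po β P x s then 1 else 0) +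
          (el P + (r + Fintype.card S + Fintype.card T : ℕ) * ql P)) := by
    refine le_trans ?_ key
    have h1 : ∑ s, ((∑ t, dg t s : ℕ) - w s : ℤ) * bht k β x s =
        ∑ s, ((∑ t, dg t s : ℕ) : ℤ) * bht k β x s - ∑ s, (w s : ℤ) * bht k β x s := by
      rw [← Finset.sum_sub_distrib]
      exact Finset.sum_congr rfl fun s _ => by ring
    rw [h1]
    linarith
  have hwr : ∑ s, w s + e ≤ r := by
    rw [Fintype.card_sum, Fintype.card_fin] at hw
    omega
  suffices hsuff : wht k A + ∑ s, ((∑ t, dg t s : ℕ) - w s : ℤ) * bht k β x s + sht k β x u ≤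
      (Meet k β dg Fm id x).ncard + canDeg k L +
        (C2 + C1 + (m + Fintype.card S + Fintype.card T) * C3 : ℕ) * Module.finrank F L by
    refine ⟨r, u, w, by omega, hu, hpx, hutan, hwr, hsuff, ?_⟩
    have h1 : ∑ s, ((∑ t, dg t s : ℕ) - w s - μ s - 1 : ℤ) * bht k β x s =
        ∑ s, ((∑ t, dg t s : ℕ) - w s : ℤ) * bht k β x s +
          (- ∑ s, ((μ s : ℤ) + 1) * bht k β x s) := by
      rw [← sub_eq_add_neg, ← Finset.sum_sub_distrib]
      exact Finset.sum_congr rfl fun s _ => by ring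
    rw [h1]
    linarith
  refine hkey2.trans ?_
  -- the counting function
  obtain ⟨cnt, hcnt⟩ : ∃ cnt : Place k L → ℤ, ∀ P, cnt P = if ∃ t, P.ord (aeval x (Fm t)) ≠
    ∑ s, (dg t s : ℤ) * po β P x s then 1 else 0 := ⟨_, fun _ => rfl⟩
  simp only [← hcnt]
  obtain ⟨Mt, hMt⟩ : ∃ Mt : Set (Place k L), Mt = Meet k β dg Fm id x := ⟨_, rfl⟩
  have hpf : ∀ s, {P : Place k L | po β P x s ≠ 0}.Finite := fun s =>
    po_finite (by rw [hx]; exact one_ne_zero) (hc s)
  have hMfin : Mt.Finite := by
    obtain ⟨U, hU⟩ := exists_supp (k := k) (Finset.univ : Finset T) fun t => aeval x (Fm t)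
    refine (U.finite_toSet.union (Set.finite_iUnion hpf)).subset fun P hP => ?_
    by_contra hcon
    simp only [Set.mem_union, Set.mem_iUnion, Set.mem_ofPred_eq, not_or, not_exists, not_not,
      Finset.mem_coe] at hcon
    obtain ⟨h1, h2⟩ := hcon
    rw [hMt] at hP
    obtain ⟨t, ht⟩ := hP
    rw [Finset.sum_eq_zero fun s _ => by rw [h2, mul_zero]] at ht
    exact h1 (hU t (Finset.mem_univ _) P ht.ne')
  have hBfin : {P : Place k L | under F P ∈ S1}.Finite := finite_over_set (Finset.finite_toSet S1)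
  have hcle : ∀ P, cnt P ≤ 1 := by
    intro P
    rw [hcnt]
    split_ifs <;> norm_num
  have hcsupp : ∀ P, cnt P ≠ 0 → P ∈ Mt ∪ {P : Place k L | under F P ∈ S1} := by
    intro P hP
    rw [hcnt] at hP
    obtain ⟨t, ht⟩ : ∃ t, P.ord (aeval x (Fm t)) ≠
        ∑ s, (dg t s : ℤ) * po β P x s := by
      by_contra h
      rw [if_neg h] at hP
      exact hP rfl
    by_cases hu : under F P ∈ S1
    · exact Or.inr hu
    · left
      rw [hMt]
      refine ⟨t, lt_of_le_of_ne ?_ ht.symm⟩
      have hmul : IsMulti β (dg t) (map (algebraMap F L) (Fm t)) := (hFmm t).map _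
      have h1 := ge_eval hmul P (fun I => by
        rw [coeff_map]
        rcases hS1c t I (under F P) hu with h | h
        · left; rw [h, map_zero]
        · right
          rw [ord_under]
          exact mul_nonneg (by positivity) h) x
      have hFlx : eval x (map (algebraMap F L) (Fm t)) = aeval x (Fm t) := by
        rw [eval_map, aeval_def]
      rw [hFlx] at h1
      exact h1.resolve_left (hxT t)
  have hcfin : {P | cnt P ≠ 0}.Finite := (hMfin.union hBfin).subset hcsupp
  have hcsum : ∑ᶠ P, cnt P ≤ Mt.ncard + Module.finrank F L * C2 := by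
    have h1 := Pool.Agent.TH812.GV.finsum_le_card (hMfin.union hBfin) (M := 1) hcle hcsupp
    have h2 : (((Mt ∪ {P : Place k L | under F P ∈ S1}).ncard : ℕ) : ℤ) ≤
        Mt.ncard + Module.finrank F L * C2 := by
      have h3 := Set.ncard_union_le Mt {P : Place k L | under F P ∈ S1}
      have h4 := card_over_le (L := L) S1
      rw [← hC2] at h4
      have h5 : (((Mt ∪ {P : Place k L | under F P ∈ S1}).ncard : ℕ) : ℤ) ≤
        (Mt.ncard : ℤ) + ({P : Place k L | under F P ∈ S1}.ncard : ℕ) := by exact_mod_cast h3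
      linarith
    rw [one_mul] at h1
    exact h1.trans h2
  obtain ⟨B, hBd⟩ : ∃ B : ℤ, B = (r + Fintype.card S + Fintype.card T : ℕ) := ⟨_, rfl⟩
  have hB0 : 0 ≤ B := by rw [hBd]; positivity
  have hBle : B ≤ m + Fintype.card S + Fintype.card T := by
    rw [hBd]
    exact_mod_cast (by omega)
  simp only [← hBd]
  have hfq' : {P | B * ql P ≠ 0}.Finite := hqf'.subset fun P hP => right_ne_zero_of_mul hP
  have hfs : ∑ᶠ P : Place k L, (cnt P + (el P + B * ql P)) =
      ∑ᶠ P, cnt P + (∑ᶠ P, el P + B * ∑ᶠ P, ql P) := by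
    rw [finsum_add_distrib hcfin ((hef.union hfq').subset fun P hP => by
      by_contra hcon
      simp only [Set.mem_union, Set.mem_ofPred_eq, not_or, not_not] at hcon
      apply hP
      dsimp only
      rw [hcon.1, hcon.2, add_zero]), finsum_add_distrib hef hfq', ← mul_finsum]
  rw [hfs]
  have hes : ∑ᶠ P, el P ≤ canDeg k L + C1 * Module.finrank F L := by
    have h1 : el = fun P => ((ram F P : ℤ) - 1) + ram F P * Qs (under F P) := funext hel
    rw [h1]
    exact hqsum
  have hqs : ∑ᶠ P, ql P ≤ C3 * Module.finrank F L := by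
    have h1 : ql = fun P => (ram F P : ℤ) * Qs (under F P) := funext hql
    rw [h1]
    exact husum
  have h10 : B * ∑ᶠ P, ql P ≤ (m + Fintype.card S + Fintype.card T) *
      (C3 * Module.finrank F L) :=
    (mul_le_mul_of_nonneg_left hqs hB0).trans (mul_le_mul_of_nonneg_right hBle (by positivity))
  rw [← hMt]
  have hcast : ((C2 + C1 + (m + Fintype.card S + Fintype.card T) * C3 : ℕ) : ℤ) =
      C2 + C1 + (m + Fintype.card S + Fintype.card T) * C3 := by
    push_cast
    ring
  rw [hcast]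
  have hfinal : (Mt.ncard + Module.finrank F L * C2 : ℤ) + (canDeg k L + C1 * Module.finrank F L +
      (m + Fintype.card S + Fintype.card T) * (C3 * Module.finrank F L)) =
      Mt.ncard + canDeg k L + (C2 + C1 + (m + Fintype.card S + Fintype.card T) * C3) *
        Module.finrank F L := by
    ring
  rw [← hfinal]
  exact add_le_add hcsum (add_le_add hes h10)

end Pool.Agent.K6.H80.VB
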