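import Pool.Agent.K6.H80.VB.Glob

/-!
The classes of the directions for a quotient with a linear presentation and for linear systems.
-/

set_option autoImplicit false
set_option linter.unusedSectionVars false

open MvPolynomial FF Pool.Agent.W603.LV Pool.Agent.W603.PV
open Pool.Agent.K6.H80.LV (Ti OK St sM pw up mn mn_pw pw_mem sM_up_mem finite_st der_adjoin)
open Pool.Agent.K6.H80.FV (gw gx gx_inl sum_gx_inl)

namespace Pool.Agent.K6.H80.VB

section fn

variable {k0 L : Type} [Field k0] [Field L] [Algebra k0 L] {σ S T J : Type} [Fintype σ]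
  [Fintype S] [Fintype T] [Fintype J] {β : σ → S} {wT : T → S → ℕ} {c : S → σ}

/-- The functionals exist. -/
theorem exists_fn2 (hc : ∀ s, β (c s) = s) {y : σ ⊕ T → L}
    (hx : ∀ s, y (Sum.inl (c s)) = 1) (a z : J → L)
    (h : ∀ δ : Derivation ℤ L L, (∀ r : k0, δ (algebraMap k0 L r) = 0) → (∀ γ, δ (y γ) = 0) →
      ∑ j, a j * δ (z j) = 0) :
    ∃ φ : σ ⊕ T → L, (∀ s, ∑ γ, φ γ * gx β wT y s γ = 0) ∧
      ∀ δ : Derivation ℤ L L, (∀ r : k0, δ (algebraMap k0 L r) = 0) →
        ∑ γ, φ γ * δ (y γ) = ∑ j, a j * δ (z j) := by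
  classical
  obtain ⟨f, hf⟩ : ∃ f : σ ⊕ T → Derivation k0 L L →ₗ[L] L, ∀ l δ, f l δ = δ (y l) :=
    ⟨fun l => { toFun := fun δ => δ (y l), map_add' := fun _ _ => rfl, map_smul' := fun _ _ => rfl },
      fun _ _ => rfl⟩
  obtain ⟨g, hg⟩ : ∃ g : Derivation k0 L L →ₗ[L] L, ∀ δ, g δ = ∑ j, a j * δ (z j) :=
    ⟨{ toFun := fun δ => ∑ j, a j * δ (z j)
       map_add' := fun a b => by
         simp only [Derivation.add_apply, mul_add, Finset.sum_add_distrib]
       map_smul' := fun r b => by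
         simp only [Derivation.smul_apply, smul_eq_mul, RingHom.id_apply, Finset.mul_sum]
         exact Finset.sum_congr rfl fun j _ => by ring }, fun _ => rfl⟩
  have hker : ⨅ i, LinearMap.ker (f i) ≤ LinearMap.ker g := by
    intro δ hδ
    simp only [Submodule.mem_iInf, LinearMap.mem_ker] at hδ ⊢
    rw [hg]
    exact h (δ.restrictScalars ℤ) (fun r => δ.map_algebraMap r) fun l => (hf l δ).symm.trans (hδ l)
  have hspan := mem_span_of_iInf_ker_le_ker hker
  rw [Submodule.mem_span_range_iff_exists_fun] at hspan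
  obtain ⟨b, hb⟩ := hspan
  have hb' : ∀ δ : Derivation ℤ L L, (∀ r : k0, δ (algebraMap k0 L r) = 0) →
      ∑ l, b l * δ (y l) = ∑ j, a j * δ (z j) := by
    intro δ hδ
    let δ' : Derivation k0 L L :=
      { toFun := δ
        map_add' := fun a b => map_add δ a b
        map_smul' := fun r y => by
          change δ (r • y) = r • δ y
          rw [Algebra.smul_def, δ.leibniz, hδ, smul_zero, add_zero, smul_eq_mul, Algebra.smul_def]
        map_one_eq_zero' := δ.map_one_eq_zero
        leibniz' := fun a b => δ.leibniz a b }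
    have h1 := congrArg (fun h : Derivation k0 L L →ₗ[L] L => h δ') hb
    simp only [LinearMap.coe_sum, Finset.sum_apply, LinearMap.smul_apply, smul_eq_mul, hf, hg] at h1
    exact h1
  obtain ⟨q, hq⟩ : ∃ q : S → L, ∀ s, q s = ∑ γ, b γ * gx β wT y s γ := ⟨_, fun _ => rfl⟩
  obtain ⟨p, hp⟩ : ∃ p : σ ⊕ T → L, ∀ γ, p γ = Sum.elim (fun l => if l = c (β l) then q (β l)
    else 0) (fun _ => 0) γ := ⟨_, fun _ => rfl⟩
  refine ⟨fun γ => b γ - p γ, fun s => ?_, fun δ hδ => ?_⟩
  · simp only [sub_mul, Finset.sum_sub_distrib]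
    rw [← hq, Finset.sum_eq_single (Sum.inl (c s) : σ ⊕ T)]
    · rw [hp, Sum.elim_inl, hc, if_pos rfl, gx_inl, hc, if_pos rfl, hx, mul_one, sub_self]
    · rintro (l | t) _ hl
      · rw [hp, Sum.elim_inl]
        by_cases h1 : l = c (β l)
        · have h3 : gx β wT y s (Sum.inl l) = 0 := by
            rw [gx_inl, if_neg]
            intro h2
            apply hl
            rw [h1, h2]
          rw [h3, mul_zero]
        · rw [if_neg h1, zero_mul]
      · rw [hp, Sum.elim_inr, zero_mul]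
    · intro h; exact absurd (Finset.mem_univ _) h
  · simp only [sub_mul, Finset.sum_sub_distrib]
    rw [hb' δ hδ, Finset.sum_eq_zero (f := fun γ => p γ * δ (y γ)) fun γ _ => ?_, sub_zero]
    rcases γ with l | t
    · rw [hp, Sum.elim_inl]
      by_cases h1 : l = c (β l)
      · have h2 : δ (y (Sum.inl l)) = 0 := by rw [h1, hx, δ.map_one_eq_zero]
        rw [h2, mul_zero]
      · rw [if_neg h1, zero_mul]
    · rw [hp, Sum.elim_inr, zero_mul]

end fn

section cl

variable {L : Type} [Field L] {σ S T J Q R : Type} [Fintype σ]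
  [Fintype S] [Fintype T] [Fintype J] [Fintype R]

theorem ev_sub (δ δ' : Derivation ℤ L L) (y : σ ⊕ T → L) : ev (δ - δ') y = ev δ y - ev δ' y := rfl

theorem ev_zero (y : σ ⊕ T → L) : ev (0 : Derivation ℤ L L) y = 0 := rfl

theorem ev_sum (g : J → L) (δ : J → Derivation ℤ L L) (y : σ ⊕ T → L) :
    ev (∑ j, g j • δ j) y = ∑ j, g j • ev (δ j) y := by
  funext γ
  rw [Finset.sum_apply]
  change (∑ j, g j • δ j) (y γ) = _
  rw [← Derivation.coeFnAddMonoidHom_apply, map_sum, Finset.sum_apply]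
  rfl

/-- The directions of the linear systems. -/
abbrev Mo (β : σ → S) (c : S → σ) (dg : T → S → ℕ) : Type := Σ t, {I // I ∈ St β c (dg t)}

noncomputable instance instSt (β : σ → S) (c : S → σ) (d : S → ℕ) :
    Fintype {I // I ∈ St β c d} := (finite_st β c d).fintype

open scoped Classical in
/-- The derivations in the tangent vector fields of the linear systems. -/
noncomputable def ET (β : σ → S) (c : S → σ) (dg : T → S → ℕ)
    (DT : T → (σ →₀ ℕ) → Derivation ℤ L L) (t : Ti σ S T) (l : σ) : Derivation ℤ L L :=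
  if OK β dg t then
    (if l = c t.2.1 then DT t.1 (sM c (dg t.1) t.2.2.1 (up t.2.2.2 t.2.1)) else 0) -
      (if l = t.2.2.1 t.2.1 then DT t.1 (sM c (dg t.1) t.2.2.1 t.2.2.2) else 0) else 0

/-- All the derivations. -/
noncomputable def DD (β : σ → S) (c : S → σ) (dg : T → S → ℕ) (DE : J → Derivation ℤ L L)
    (DT : T → (σ →₀ ℕ) → Derivation ℤ L L) : J ⊕ Mo β c dg → Derivation ℤ L L :=
  Sum.elim DE fun p => DT p.1 p.2

/-- All the derivations in the tangent vector fields. -/
noncomputable def EE (β : σ → S) (c : S → σ) (dg : T → S → ℕ) (Eo : Q → σ → Derivation ℤ L L)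
    (DT : T → (σ →₀ ℕ) → Derivation ℤ L L) : Q ⊕ Ti σ S T → σ → Derivation ℤ L L :=
  Sum.elim Eo (ET β c dg DT)

/-- The factors. -/
def SQ (s0 : Q → S) : Q ⊕ Ti σ S T → S := Sum.elim s0 fun t => t.2.1

open scoped Classical in
/-- The classes. -/
noncomputable def MM (β : σ → S) (c : S → σ) (dg : T → S → ℕ) (A : Matrix R J L) (x : σ → L) :
    Matrix (R ⊕ T) (J ⊕ Mo β c dg) L :=
  Matrix.of fun i j => match i, j with
    | Sum.inl i, Sum.inl j => A i j
    | Sum.inr t, Sum.inr p => if t = p.1 then mn x p.2 else 0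
    | _, _ => 0

variable {β : σ → S} {wT : T → S → ℕ} {c : S → σ} {dg : T → S → ℕ}
  {DE : J → Derivation ℤ L L} {Eo : Q → σ → Derivation ℤ L L}
  {DT : T → (σ →₀ ℕ) → Derivation ℤ L L} {s0 : Q → S}

theorem tv_inr (hc : ∀ s, β (c s) = s) (y : σ ⊕ T → L) (t : Ti σ S T) :
    tv β (EE β c dg Eo DT) (SQ s0) y (Sum.inr t) = Pool.Agent.K6.H80.FV.tv β c dg DT y t := by
  classical
  rw [tv, Pool.Agent.K6.H80.FV.tv]
  by_cases ht : OK β dg t
  · rw [if_pos ht]
    have h1 : ∀ l, (if β l = SQ s0 (Sum.inr t : Q ⊕ Ti σ S T) then y (Sum.inl l) •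
        ev (EE β c dg Eo DT (Sum.inr t) l) y else 0) =
        (if l = c t.2.1 then y (Sum.inl l) •
          ev (DT t.1 (sM c (dg t.1) t.2.2.1 (up t.2.2.2 t.2.1))) y else 0) -
        (if l = t.2.2.1 t.2.1 then y (Sum.inl l) •
          ev (DT t.1 (sM c (dg t.1) t.2.2.1 t.2.2.2)) y else 0) := by
      intro l
      have e1 : EE β c dg Eo DT (Sum.inr t) l =
          (if l = c t.2.1 then DT t.1 (sM c (dg t.1) t.2.2.1 (up t.2.2.2 t.2.1)) else 0) -
          (if l = t.2.2.1 t.2.1 then DT t.1 (sM c (dg t.1) t.2.2.1 t.2.2.2) else 0) := by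
        change ET β c dg DT t l = _
        rw [ET, if_pos ht]
      rw [e1, ev_sub, smul_sub]
      have e2 : SQ s0 (Sum.inr t : Q ⊕ Ti σ S T) = t.2.1 := rfl
      rw [e2]
      by_cases h : β l = t.2.1
      · rw [if_pos h]
        congr 1
        · split_ifs
          · rfl
          · rw [ev_zero, smul_zero]
        · split_ifs
          · rfl
          · rw [ev_zero, smul_zero]
      · rw [if_neg h, if_neg, if_neg, sub_zero]
        · rintro rfl; exact h (ht.1 _)
        · rintro rfl; exact h (hc _)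
    rw [Finset.sum_congr rfl fun l _ => h1 l, Finset.sum_sub_distrib,
      Finset.sum_ite_eq' Finset.univ (c t.2.1), Finset.sum_ite_eq' Finset.univ (t.2.2.1 t.2.1),
      if_pos (Finset.mem_univ _), if_pos (Finset.mem_univ _)]
    rfl
  · rw [if_neg ht]
    refine Finset.sum_eq_zero fun l _ => ?_
    have e1 : EE β c dg Eo DT (Sum.inr t) l = 0 := by
      change ET β c dg DT t l = _
      rw [ET, if_neg ht]
    rw [e1, ev_zero, smul_zero, ite_self]

open scoped Classical in
theorem tv_inl {g : Q → J → σ → L} (hEo : ∀ q l, β l = s0 q → Eo q l = ∑ j, g q j l • DE j)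
    (y : σ ⊕ T → L) (q : Q) :
    tv β (EE β c dg Eo DT) (SQ s0) y (Sum.inl q) =
      ∑ j, (∑ l, if β l = s0 q then g q j l * y (Sum.inl l) else 0) • ev (DE j) y := by
  rw [tv]
  have h1 : ∀ l, (if β l = SQ s0 (Sum.inl q : Q ⊕ Ti σ S T) then y (Sum.inl l) •
      ev (EE β c dg Eo DT (Sum.inl q) l) y else 0) =
      ∑ j, (if β l = s0 q then g q j l * y (Sum.inl l) else 0) • ev (DE j) y := by
    intro l
    have e2 : SQ s0 (Sum.inl q : Q ⊕ Ti σ S T) = s0 q := rfl
    rw [e2]
    by_cases h : β l = s0 q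
    · simp only [if_pos h]
      have e1 : EE β c dg Eo DT (Sum.inl q) l = ∑ j, g q j l • DE j := hEo q l h
      rw [e1, ev_sum, Finset.smul_sum]
      exact Finset.sum_congr rfl fun j _ => by rw [smul_smul, mul_comm]
    · simp only [if_neg h, zero_smul, Finset.sum_const_zero]
  rw [Finset.sum_congr rfl fun l _ => h1 l, Finset.sum_comm]
  exact Finset.sum_congr rfl fun j _ => by rw [Finset.sum_smul]

open scoped Classical in
/-- The classes satisfy the conditions. -/
theorem exists_cl {k0 : Type} [Field k0] [Algebra k0 L] [DecidableEq R]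
    (hc : ∀ s, β (c s) = s) {y : σ ⊕ T → L}
    (hx : ∀ s, y (Sum.inl (c s)) = 1) {g : Q → J → σ → L}
    (hEo : ∀ q l, β l = s0 q → Eo q l = ∑ j, g q j l • DE j)
    (hDE : ∀ j (r : k0), DE j (algebraMap k0 L r) = 0)
    (hDT : ∀ t I (r : k0), DT t I (algebraMap k0 L r) = 0)
    (A : Matrix R J L)
    (hker : ∀ κ : J → L, A.mulVec κ = 0 → κ ∈ Submodule.span L (Set.range fun q j =>
      ∑ l, if β l = s0 q then g q j l * y (Sum.inl l) else 0))
    (hAG : ∀ q, (A.mulVec fun j => ∑ l, if β l = s0 q then g q j l * y (Sum.inl l) else 0) = 0)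
    (z : J → L) (hz : ∀ i j, DE i (z j) = if i = j then 1 else 0) (hzT : ∀ t I j, DT t I (z j) = 0)
    (hfn : ∀ (δ : Derivation ℤ L L), (∀ r : k0, δ (algebraMap k0 L r) = 0) →
      (∀ γ, δ (y γ) = 0) → A.mulVec (fun j => δ (z j)) = 0)
    {X : T → Type} [∀ t, Fintype (X t)] (a u : ∀ t, X t → L)
    (hu : ∀ t b, ∀ I ∈ St β c (dg b), ∑ j, a t j * DT b I (u t j) =
      if t = b then mn (y ∘ Sum.inl) I else 0) (huE : ∀ t i j, DE i (u t j) = 0)
    (hfnT : ∀ (δ : Derivation ℤ L L), (∀ r : k0, δ (algebraMap k0 L r) = 0) →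
      (∀ γ, δ (y γ) = 0) → ∀ t, ∑ j, a t j * δ (u t j) = 0) :
    ∃ φ : R ⊕ T → σ ⊕ T → L, Cl β wT (DD β c dg DE DT) (EE β c dg Eo DT) (SQ s0) y
      (MM β c dg A (y ∘ Sum.inl)) φ := by
  choose φ1 hφ1 hφ1' using fun i : R => exists_fn2 (k0 := k0) (wT := wT) hc hx (A i) z
    fun δ hδ hδy => congrFun (hfn δ hδ hδy) i
  choose φ2 hφ2 hφ2' using fun t : T => exists_fn2 (k0 := k0) (wT := wT) hc hx (a t) (u t)
    fun δ hδ hδy => hfnT δ hδ hδy t
  have hval1 : ∀ i j, ∑ γ, φ1 i γ * DE j (y γ) = A i j := by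
    intro i j
    rw [hφ1' i (DE j) (hDE j)]
    simp only [hz, mul_ite, mul_one, mul_zero]
    rw [Finset.sum_ite_eq Finset.univ j, if_pos (Finset.mem_univ _)]
  have hval2 : ∀ i t I, ∑ γ, φ1 i γ * DT t I (y γ) = 0 := by
    intro i t I
    rw [hφ1' i (DT t I) (hDT t I)]
    exact Finset.sum_eq_zero fun j _ => by rw [hzT, mul_zero]
  have hval3 : ∀ t j, ∑ γ, φ2 t γ * DE j (y γ) = 0 := by
    intro t j
    rw [hφ2' t (DE j) (hDE j)]
    exact Finset.sum_eq_zero fun i _ => by rw [huE, mul_zero]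
  have hval4 : ∀ t b, ∀ I ∈ St β c (dg b), ∑ γ, φ2 t γ * DT b I (y γ) =
      if t = b then mn (y ∘ Sum.inl) I else 0 := by
    intro t b I hI
    rw [hφ2' t (DT b I) (hDT b I), hu t b I hI]
  have hsum : ∀ (φ : σ ⊕ T → L) (f : J → L), ∑ γ, φ γ * (∑ j, f j • ev (DE j) y) γ =
      ∑ j, f j * ∑ γ, φ γ * DE j (y γ) := by
    intro φ f
    simp only [Finset.sum_apply, Pi.smul_apply, smul_eq_mul, ev, Finset.mul_sum]
    rw [Finset.sum_comm]
    exact Finset.sum_congr rfl fun j _ => Finset.sum_congr rfl fun γ _ => by ring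
  have htvT : ∀ (φ : σ ⊕ T → L) (t : Ti σ S T), ∑ γ, φ γ *
      Pool.Agent.K6.H80.FV.tv β c dg DT y t γ = if OK β dg t then
        y (Sum.inl (c t.2.1)) *
          (∑ γ, φ γ * DT t.1 (sM c (dg t.1) t.2.2.1 (up t.2.2.2 t.2.1)) (y γ)) -
        y (Sum.inl (t.2.2.1 t.2.1)) * (∑ γ, φ γ * DT t.1 (sM c (dg t.1) t.2.2.1 t.2.2.2) (y γ))
        else 0 := by
    intro φ t
    rw [Pool.Agent.K6.H80.FV.tv]
    split_ifs with ht
    · simp only [Pi.sub_apply, Pi.smul_apply, smul_eq_mul, Pool.Agent.K6.H80.FV.Ev]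
      rw [Finset.mul_sum, Finset.mul_sum, ← Finset.sum_sub_distrib]
      exact Finset.sum_congr rfl fun l _ => by ring
    · simp
  refine ⟨Sum.elim φ1 φ2, ?_, ?_, ?_⟩
  · -- the relations
    intro κ hκ
    obtain ⟨W, hW⟩ : ∃ W, W = Submodule.span L
      (Set.range (wv β wT (EE β c dg Eo DT) (SQ s0) y)) := ⟨_, rfl⟩
    have hwW : ∀ o, wv β wT (EE β c dg Eo DT) (SQ s0) y o ∈ W := fun o =>
      hW ▸ Submodule.subset_span ⟨o, rfl⟩
    rw [← hW, Fintype.sum_sum_type]
    refine add_mem ?_ ?_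
    · have h1 : A.mulVec (fun j => κ (Sum.inl j)) = 0 := by
        funext i
        have h2 := congrFun hκ (Sum.inl i)
        rw [Matrix.mulVec, dotProduct, Fintype.sum_sum_type] at h2
        have h3 : ∑ p : Mo β c dg, MM β c dg A (y ∘ Sum.inl) (Sum.inl i) (Sum.inr p) *
            κ (Sum.inr p) = 0 := Finset.sum_eq_zero fun p _ => by
          change (0 : L) * _ = 0
          rw [zero_mul]
        rw [h3, add_zero] at h2
        exact h2
      have h2 := hker _ h1
      have h3 : ∀ v : J → L, v ∈ Submodule.span L (Set.range fun q j =>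
          ∑ l, if β l = s0 q then g q j l * y (Sum.inl l) else 0) →
          ∑ j, v j • ev (DE j) y ∈ W := by
        intro v hv
        induction hv using Submodule.span_induction with
        | mem v hv =>
          obtain ⟨q, rfl⟩ := hv
          have h4 := hwW (Sum.inr (Sum.inl q))
          change tv β (EE β c dg Eo DT) (SQ s0) y (Sum.inl q) ∈ W at h4
          rw [tv_inl hEo] at h4
          exact h4
        | zero =>
          simp only [Pi.zero_apply, zero_smul, Finset.sum_const_zero]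
          exact zero_mem _
        | add v w _ _ hv hw =>
          simp only [Pi.add_apply, add_smul, Finset.sum_add_distrib]
          exact add_mem hv hw
        | smul r v _ hv =>
          simp only [Pi.smul_apply, smul_eq_mul, mul_smul, ← Finset.smul_sum]
          exact Submodule.smul_mem _ _ hv
      exact h3 _ h2
    · rw [Fintype.sum_sigma]
      refine sum_mem fun t _ => ?_
      have hxc : ∀ s, y (Sum.inl (c s)) ≠ 0 := fun s => by rw [hx]; exact one_ne_zero
      have hFW : Submodule.span L (Set.range (Pool.Agent.K6.H80.FV.wv β wT c dg DT y)) ≤ W := by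
        rw [Submodule.span_le]
        rintro _ ⟨(s | o), rfl⟩
        · exact hwW (Sum.inl s)
        · have h4 := hwW (Sum.inr (Sum.inr o))
          change tv β (EE β c dg Eo DT) (SQ s0) y (Sum.inr o) ∈ W at h4
          rw [tv_inr hc] at h4
          exact h4
      have h1 : ∑ I : {I // I ∈ St β c (dg t)}, κ (Sum.inr ⟨t, I⟩) * mn (y ∘ Sum.inl) I = 0 := by
        have h2 := congrFun hκ (Sum.inr t)
        rw [Matrix.mulVec, dotProduct, Fintype.sum_sum_type] at h2
        have h3 : ∑ j : J, MM β c dg A (y ∘ Sum.inl) (Sum.inr t) (Sum.inl j) *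
            κ (Sum.inl j) = 0 := Finset.sum_eq_zero fun p _ => by
          change (0 : L) * _ = 0
          rw [zero_mul]
        rw [h3, zero_add, Fintype.sum_sigma, Finset.sum_eq_single t] at h2
        · refine Eq.trans ?_ h2
          refine Finset.sum_congr rfl fun I _ => ?_
          change _ = (if t = t then mn (y ∘ Sum.inl) I else 0) * _
          rw [if_pos rfl, mul_comm]
        · intro t' _ ht'
          refine Finset.sum_eq_zero fun I _ => ?_
          change (if t = t' then mn (y ∘ Sum.inl) I else 0) * _ = 0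
          rw [if_neg (Ne.symm ht'), zero_mul]
        · intro h; exact absurd (Finset.mem_univ _) h
      have h2 : ∀ I : {I // I ∈ St β c (dg t)}, ev (DT t I) y -
          (mn (y ∘ Sum.inl) I / mn (y ∘ Sum.inl) (pw c (dg t))) • ev (DT t (pw c (dg t))) y ∈ W :=
        fun I => hFW (Pool.Agent.K6.H80.FV.Ev_mod (wT := wT) dg DT hxc t I.2)
      have h3 : ∑ I : {I // I ∈ St β c (dg t)}, κ (Sum.inr ⟨t, I⟩) •
          ev (DD β c dg DE DT (Sum.inr ⟨t, I⟩)) y =
          ∑ I : {I // I ∈ St β c (dg t)}, κ (Sum.inr ⟨t, I⟩) • (ev (DT t I) y -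
            (mn (y ∘ Sum.inl) I / mn (y ∘ Sum.inl) (pw c (dg t))) •
              ev (DT t (pw c (dg t))) y) := by
        simp only [smul_sub, Finset.sum_sub_distrib, smul_smul, ← mul_div_assoc]
        rw [← Finset.sum_smul, ← Finset.sum_div, h1, zero_div, zero_smul, sub_zero]
        rfl
      rw [h3]
      exact sum_mem fun I _ => Submodule.smul_mem _ _ (h2 I)
  · -- the tangent vector fields
    rintro (i | t) (s | (q | o))
    · exact hφ1 i s
    · change ∑ γ, φ1 i γ * tv β (EE β c dg Eo DT) (SQ s0) y (Sum.inl q) γ = 0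
      rw [tv_inl hEo, hsum]
      simp only [hval1]
      have h1 := congrFun (hAG q) i
      rw [Matrix.mulVec, dotProduct] at h1
      refine Eq.trans ?_ h1
      exact Finset.sum_congr rfl fun j _ => by rw [mul_comm]
    · change ∑ γ, φ1 i γ * tv β (EE β c dg Eo DT) (SQ s0) y (Sum.inr o) γ = 0
      rw [tv_inr hc, htvT]
      split_ifs
      · rw [hval2, hval2]; ring
      · rfl
    · exact hφ2 t s
    · change ∑ γ, φ2 t γ * tv β (EE β c dg Eo DT) (SQ s0) y (Sum.inl q) γ = 0
      rw [tv_inl hEo, hsum]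
      exact Finset.sum_eq_zero fun j _ => by rw [hval3, mul_zero]
    · change ∑ γ, φ2 t γ * tv β (EE β c dg Eo DT) (SQ s0) y (Sum.inr o) γ = 0
      rw [tv_inr hc, htvT]
      split_ifs with ho
      · rw [hval4 _ _ _ (sM_up_mem ho.1 ho.2.1 ho.2.2), hval4 _ _ _ ⟨_, _, ho.1, ho.2.1, rfl⟩]
        split_ifs with hto
        · have h2 := Pool.Agent.K6.H80.LV.mn_step (y ∘ Sum.inl) c (dg o.1) o.2.2.1 o.2.2.2 o.2.1
            ho.2.2
          simp only [Function.comp_apply] at h2
          linear_combination h2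
        · ring
      · rfl
  · -- the values
    rintro (i | t) (j | ⟨b, I⟩)
    · exact hval1 i j
    · exact hval2 i b I
    · exact hval3 t j
    · exact hval4 t b I I.2

end cl

end Pool.Agent.K6.H80.VB
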